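import Pool.Agent.MP_e25d14_pr.Defs

namespace Pool.Agent.MP_e25d14_pr

open Finset

variable {S : Type} [Fintype S] [DecidableEq S]

theorem hitProb_zero (P : Matrix S S ℝ) (x y : S) :
    hitProb P x y 0 = if x = y then 1 else 0 := by
  unfold hitProb
  rw [← (Equiv.funUnique (Fin 1) S).symm.sum_comp]
  simp only [Equiv.funUnique_symm_apply, uniqueElim_const, Fin.forall_fin_zero, and_true,
    Finset.univ_eq_empty, Finset.prod_empty]
  by_cases h : x = y
  · subst h
    simp
  · simp only [h, if_false]
    apply Finset.sum_eq_zero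
    intro a _
    rw [if_neg]
    rintro ⟨h1, h2⟩
    exact h (h1.symm.trans h2)

theorem hitProb_succ (P : Matrix S S ℝ) (x y : S) (t : ℕ) :
    hitProb P x y (t + 1) = if x = y then 0 else ∑ z, P x z * hitProb P z y t := by
  unfold hitProb
  rw [← (Fin.consEquiv (fun _ : Fin (t + 2) => S)).sum_comp, Fintype.sum_prod_type]
  simp only [Fin.consEquiv_apply, Fin.cons_zero]
  have key : ∀ (a : S) (w : Fin (t + 1) → S),
      (if a = x ∧ (Fin.cons a w : Fin (t + 2) → S) (Fin.last (t + 1)) = y ∧
          ∀ s : Fin (t + 1), (Fin.cons a w : Fin (t + 2) → S) s.castSucc ≠ y then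
        ∏ s : Fin (t + 1), P ((Fin.cons a w : Fin (t + 2) → S) s.castSucc)
          ((Fin.cons a w : Fin (t + 2) → S) s.succ) else 0)
      = if a = x ∧ a ≠ y then P a (w 0) * (if (w (Fin.last t) = y ∧
          ∀ s : Fin t, w s.castSucc ≠ y) then ∏ s : Fin t, P (w s.castSucc) (w s.succ) else 0)
        else 0 := by
    intro a w
    have h1 : (Fin.cons a w : Fin (t + 2) → S) (Fin.last (t + 1)) = w (Fin.last t) := by
      rw [← Fin.succ_last, Fin.cons_succ]
    have h2 : (∀ s : Fin (t + 1), (Fin.cons a w : Fin (t + 2) → S) s.castSucc ≠ y) ↔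
        (a ≠ y ∧ ∀ s : Fin t, w s.castSucc ≠ y) := by
      rw [Fin.forall_fin_succ]
      simp only [Fin.castSucc_zero, Fin.cons_zero, Fin.castSucc_succ, Fin.cons_succ]
    have h3 : ∏ s : Fin (t + 1), P ((Fin.cons a w : Fin (t + 2) → S) s.castSucc)
          ((Fin.cons a w : Fin (t + 2) → S) s.succ)
        = P a (w 0) * ∏ s : Fin t, P (w s.castSucc) (w s.succ) := by
      rw [Fin.prod_univ_succ]
      simp only [Fin.castSucc_zero, Fin.cons_zero, Fin.castSucc_succ, Fin.cons_succ]
    simp only [h1, h2, h3]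
    by_cases ha : a = x ∧ a ≠ y
    · rw [if_pos ha]
      by_cases hb : (w (Fin.last t) = y ∧ ∀ s : Fin t, w s.castSucc ≠ y)
      · rw [if_pos hb, if_pos ⟨ha.1, hb.1, ha.2, hb.2⟩]
      · rw [if_neg hb, if_neg, mul_zero]
        rintro ⟨_, h5, _, h6⟩
        exact hb ⟨h5, h6⟩
    · rw [if_neg ha, if_neg]
      rintro ⟨h4, _, h5, _⟩
      exact ha ⟨h4, h5⟩
  simp only [key]
  by_cases hxy : x = y
  · rw [if_pos hxy]
    apply Finset.sum_eq_zero
    intro a _
    apply Finset.sum_eq_zero
    intro w _
    rw [if_neg]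
    rintro ⟨h1, h2⟩
    exact h2 (h1.trans hxy)
  · rw [if_neg hxy]
    rw [Finset.sum_eq_single x]
    · simp only [true_and, ne_eq, hxy, not_false_eq_true, if_true]
      simp only [Finset.mul_sum]
      rw [Finset.sum_comm]
      apply Finset.sum_congr rfl
      intro w _
      rw [Finset.sum_eq_single (w 0)]
      · simp
      · intro b _ hb
        rw [if_neg, mul_zero]
        rintro ⟨h1, _⟩
        exact hb h1.symm
      · intro h
        exact absurd (Finset.mem_univ _) h
    · intro b _ hb
      apply Finset.sum_eq_zero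
      intro w _
      rw [if_neg]
      rintro ⟨h1, _⟩
      exact hb h1
    · intro h
      exact absurd (Finset.mem_univ _) h

theorem hitProb_nonneg {P : Matrix S S ℝ} (hP : ∀ u v, 0 ≤ P u v) (x y : S) (t : ℕ) :
    0 ≤ hitProb P x y t := by
  unfold hitProb
  apply Finset.sum_nonneg
  intro w _
  split_ifs
  · exact Finset.prod_nonneg fun s _ => hP _ _
  · exact le_rfl

/-- Total mass of the first hitting time up to time `n` is at most one. -/
theorem sum_hitProb_le_one {P : Matrix S S ℝ} (hP : ∀ u v, 0 ≤ P u v)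
    (hrow : ∀ u, ∑ v, P u v = 1) (x y : S) (n : ℕ) :
    ∑ k ∈ Finset.range n, hitProb P x y k ≤ 1 := by
  induction n generalizing x with
  | zero => simp
  | succ n ih =>
    rw [Finset.sum_range_succ']
    rw [hitProb_zero]
    by_cases hxy : x = y
    · simp only [hitProb_succ, hxy, if_true, Finset.sum_const_zero, zero_add, le_refl]
    · simp only [hitProb_succ, hxy, if_false, add_zero]
      rw [Finset.sum_comm]
      calc ∑ z, ∑ k ∈ Finset.range n, P x z * hitProb P z y k
          = ∑ z, P x z * ∑ k ∈ Finset.range n, hitProb P z y k := by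
            simp only [Finset.mul_sum]
        _ ≤ ∑ z, P x z * 1 := by
            apply Finset.sum_le_sum
            intro z _
            exact mul_le_mul_of_nonneg_left (ih z) (hP x z)
        _ = 1 := by simp [hrow]

end Pool.Agent.MP_e25d14_pr
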