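import Mathlib

/-!
# Reversible finite Markov chains and first hitting probabilities
-/

namespace Pool.Agent.MP_e25d14_pr

open Finset

/-- `P` is the transition matrix of an irreducible Markov chain on the finite set `S`
that is reversible with respect to the probability vector `π`.  Reversibility makes `π`
stationary, and irreducibility makes it the unique stationary distribution. -/
structure IsReversibleChain {S : Type} [Fintype S] [DecidableEq S]
    (P : Matrix S S ℝ) (π : S → ℝ) : Prop where
  nonneg : ∀ u v, 0 ≤ P u v
  row_sum : ∀ u, ∑ v, P u v = 1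
  irred : ∀ u v, ∃ n : ℕ, 0 < (P ^ n) u v
  pi_nonneg : ∀ u, 0 ≤ π u
  pi_sum : ∑ u, π u = 1
  balance : ∀ u v, π u * P u v = π v * P v u

/-- `hitProb P x y t` is the probability that the chain with transition matrix `P`
started at `x` hits `y` for the first time exactly at time `t`: the sum, over all
trajectories `ω 0, …, ω t` with `ω 0 = x`, `ω t = y` and `ω s ≠ y` for `s < t`, of the
probability of the trajectory. -/
noncomputable def hitProb {S : Type} [Fintype S] [DecidableEq S]
    (P : Matrix S S ℝ) (x y : S) (t : ℕ) : ℝ :=
  ∑ ω : Fin (t + 1) → S,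
    if ω 0 = x ∧ ω (Fin.last t) = y ∧ ∀ s : Fin t, ω s.castSucc ≠ y then
      ∏ s : Fin t, P (ω s.castSucc) (ω s.succ)
    else 0

end Pool.Agent.MP_e25d14_pr
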