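import Pool.Agent.MP_e25d14_pr.Reg

/-! Bound for arbitrary finite reversible chains (no holding assumption). -/

namespace Pool.Agent.MP_e25d14_pr

open Finset

variable {S : Type} [Fintype S] [DecidableEq S] {P : Matrix S S ℝ} {π : S → ℝ}

/-- Bregman divergence of `x log x` -/
noncomputable def breg (a b : ℝ) : ℝ := phi a - a * Real.log b - a + b

theorem breg_scale {b r : ℝ} (hb : 0 < b) (hr : 0 ≤ r) :
    breg (b * r) b = b * (phi r - r + 1) := by
  unfold breg phi
  rcases hr.eq_or_lt with h | h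
  · rw [← h]; simp
  · rw [Real.log_mul hb.ne' h.ne']
    ring

theorem psi_ge_sqrt {r : ℝ} (hr : 0 ≤ r) : (√r - 1) ^ 2 ≤ phi r - r + 1 := by
  rcases hr.eq_or_lt with h | h
  · rw [← h]; simp [phi]
  · have hs : 0 < √r := Real.sqrt_pos.mpr h
    have h1 := Real.one_sub_inv_le_log_of_pos hs
    have h2 : Real.log r = 2 * Real.log (√r) := by
      rw [Real.log_sqrt h.le]; ring
    have h3 : r = √r * √r := (Real.mul_self_sqrt h.le).symm
    have h4 : r * (1 - (√r)⁻¹) = r - √r := by
      have : r * (√r)⁻¹ = √r := by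
        nth_rewrite 1 [h3]
        field_simp
      rw [mul_sub, this, mul_one]
    have h5 : r * (1 - (√r)⁻¹) ≤ r * Real.log (√r) := mul_le_mul_of_nonneg_left h1 h.le
    unfold phi
    rw [h2]
    have h6 : (√r - 1) ^ 2 = r - 2 * √r + 1 := by
      have : (√r) ^ 2 = r := Real.sq_sqrt h.le
      calc (√r - 1) ^ 2 = (√r) ^ 2 - 2 * √r + 1 := by ring
        _ = r - 2 * √r + 1 := by rw [this]
    rw [h6]
    nlinarith

/-- pointwise inequality -/
theorem pointwise_gen {R lam a b Δ : ℝ} (hR : 2 ≤ Real.log R) (hR0 : 0 < R) (hlam : 0 < lam)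
    (ha : 0 ≤ a) (hb : 0 ≤ b) (hab : b = 0 → a = 0) (hΔ : |Δ| ≤ 2) :
    (b - a) * Δ ≤ lam / 2 * (b * Δ ^ 2)
      + ((1 + √R) ^ 2 / (2 * lam) + 4 / Real.log R) * breg a b := by
  rcases hb.eq_or_lt with h | h
  · have hb0 : b = 0 := h.symm
    rw [hb0, hab hb0]
    simp [breg, phi]
  · set r : ℝ := a / b with hr
    have har : a = b * r := by rw [hr]; field_simp
    have hr0 : 0 ≤ r := div_nonneg ha h.le
    have hlogR : 0 < Real.log R := by linarith
    have hpsi := psi_ge_sqrt hr0
    have hpsi0 : 0 ≤ phi r - r + 1 := le_trans (sq_nonneg _) hpsi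
    have hcore : (1 - r) * Δ ≤ lam / 2 * Δ ^ 2
        + ((1 + √R) ^ 2 / (2 * lam) + 4 / Real.log R) * (phi r - r + 1) := by
      rcases le_or_gt r R with hrR | hrR
      · have h1 : (1 - r) * Δ ≤ lam / 2 * Δ ^ 2 + (1 - r) ^ 2 / (2 * lam) := by
          have : lam / 2 * Δ ^ 2 + (1 - r) ^ 2 / (2 * lam) - (1 - r) * Δ
              = (lam * Δ - (1 - r)) ^ 2 / (2 * lam) := by
            field_simp
            ring
          have h2 : 0 ≤ (lam * Δ - (1 - r)) ^ 2 / (2 * lam) := by positivity
          linarith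
        have h2 : (1 - r) ^ 2 ≤ (1 + √R) ^ 2 * (phi r - r + 1) := by
          have h3 : (1 - r) ^ 2 = (1 + √r) ^ 2 * (√r - 1) ^ 2 := by
            have : r = √r * √r := (Real.mul_self_sqrt hr0).symm
            nth_rewrite 1 [this]
            ring
          rw [h3]
          have h4 : √r ≤ √R := Real.sqrt_le_sqrt hrR
          have h5 : (1 + √r) ^ 2 ≤ (1 + √R) ^ 2 := by
            apply pow_le_pow_left₀
            · positivity
            · linarith
          exact mul_le_mul h5 hpsi (sq_nonneg _) (sq_nonneg _)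
        have h3 : (1 - r) ^ 2 / (2 * lam) ≤ (1 + √R) ^ 2 / (2 * lam) * (phi r - r + 1) := by
          rw [div_mul_eq_mul_div]
          exact div_le_div_of_nonneg_right h2 (by positivity)
        have h4 : 0 ≤ 4 / Real.log R * (phi r - r + 1) := by positivity
        linarith
      · have h1 : (1 - r) * Δ ≤ 2 * r := by
          have h2 := abs_le.mp hΔ
          have h3 : 1 < R := by
            rw [← Real.log_pos_iff hR0.le]
            exact hlogR
          nlinarith
        have h2 : r * Real.log R / 2 ≤ phi r - r + 1 := by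
          unfold phi
          have h3 : Real.log R ≤ Real.log r := Real.log_le_log hR0 hrR.le
          nlinarith
        have h3 : 2 * r ≤ 4 / Real.log R * (phi r - r + 1) := by
          rw [div_mul_eq_mul_div, le_div_iff₀ hlogR]
          linarith
        have h4 : 0 ≤ (1 + √R) ^ 2 / (2 * lam) * (phi r - r + 1) := by positivity
        have h5 : 0 ≤ lam / 2 * Δ ^ 2 := by positivity
        linarith
    have e1 : breg a b = b * (phi r - r + 1) := by
      rw [har]
      exact breg_scale h hr0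
    rw [e1]
    have h6 := mul_le_mul_of_nonneg_left hcore h.le
    calc (b - a) * Δ = b * ((1 - r) * Δ) := by rw [har]; ring
      _ ≤ _ := h6
      _ = _ := by ring

theorem kl_identity (hch : IsReversibleChain P π) (x : S) (s : ℕ) :
    ∑ y, ∑ z, π y * P y z * breg (dens P π x s z) (dens P π x (s + 1) y)
      = ent P π x s - ent P π x (s + 1) := by
  have e1 : ∀ y z, π y * P y z * breg (dens P π x s z) (dens P π x (s + 1) y)
      = π y * P y z * phi (dens P π x s z)
        - π y * Real.log (dens P π x (s + 1) y) * (P y z * dens P π x s z)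
        - π y * (P y z * dens P π x s z) + π y * dens P π x (s + 1) y * P y z := by
    intro y z
    unfold breg
    ring
  simp only [e1, Finset.sum_add_distrib, Finset.sum_sub_distrib, ← Finset.mul_sum, hch.row_sum,
    ← dens_succ, mul_one]
  have e2 : ∑ y, ∑ z, π y * P y z * phi (dens P π x s z) = ent P π x s := by
    unfold ent
    rw [Finset.sum_comm]
    apply Finset.sum_congr rfl
    intro z _
    rw [← Finset.sum_mul, pi_stationary hch z]
  have e3 : ∑ y, π y * Real.log (dens P π x (s + 1) y) * dens P π x (s + 1) y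
      = ent P π x (s + 1) := by
    unfold ent phi
    apply Finset.sum_congr rfl
    intro y _
    ring
  rw [e2, e3]
  ring

theorem gen_step (hch : IsReversibleChain P π) {R lam : ℝ} (hR : 2 ≤ Real.log R) (hR0 : 0 < R)
    (hlam : 0 < lam) (x : S) (s : ℕ) (g : S → ℝ) (hg : ∀ z, |g z| ≤ 1) :
    ∑ z, ((P ^ (s + 2)) x z - (P ^ s) x z) * g z
      - lam / 2 * ∑ y, (P ^ (s + 1)) x y * (∑ z, P y z * g z ^ 2 - (∑ z, P y z * g z) ^ 2)
      ≤ ((1 + √R) ^ 2 / (2 * lam) + 4 / Real.log R) * (ent P π x s - ent P π x (s + 1)) := by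
  set K : ℝ := (1 + √R) ^ 2 / (2 * lam) + 4 / Real.log R with hK
  set G : S → ℝ := fun y => ∑ z, P y z * g z with hG
  have hGabs : ∀ y, |G y| ≤ 1 := by
    intro y
    calc |G y| ≤ ∑ z, |P y z * g z| := Finset.abs_sum_le_sum_abs _ _
      _ ≤ ∑ z, P y z * 1 := by
          apply Finset.sum_le_sum
          intro z _
          rw [abs_mul, abs_of_nonneg (hch.nonneg y z)]
          exact mul_le_mul_of_nonneg_left (hg z) (hch.nonneg y z)
      _ = 1 := by rw [← Finset.sum_mul, hch.row_sum, one_mul]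
  -- first term
  have e1 : ∑ z, ((P ^ (s + 2)) x z - (P ^ s) x z) * g z
      = ∑ y, ∑ z, π y * P y z *
        ((dens P π x (s + 1) y - dens P π x s z) * (g z - G y)) := by
    have a1 : ∑ z, (P ^ (s + 2)) x z * g z
        = ∑ y, ∑ z, π y * P y z * (dens P π x (s + 1) y * g z) := by
      have : ∀ z, (P ^ (s + 2)) x z = ∑ y, π y * dens P π x (s + 1) y * P y z := by
        intro z
        rw [show s + 2 = (s + 1) + 1 from rfl, pow_succ_entry]
        apply Finset.sum_congr rfl
        intro y _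
        rw [pi_mul_dens hch]
      simp only [this, Finset.sum_mul]
      rw [Finset.sum_comm]
      apply Finset.sum_congr rfl
      intro y _
      apply Finset.sum_congr rfl
      intro z _
      ring
    have a2 : ∑ z, (P ^ s) x z * g z = ∑ y, ∑ z, π y * P y z * (dens P π x s z * g z) := by
      rw [Finset.sum_comm]
      apply Finset.sum_congr rfl
      intro z _
      rw [← Finset.sum_mul, pi_stationary hch z, ← pi_mul_dens hch x s z]
      ring
    have a3 : ∑ y, ∑ z, π y * P y z * ((dens P π x (s + 1) y - dens P π x s z) * G y) = 0 := by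
      apply Finset.sum_eq_zero
      intro y _
      have hgen : ∀ c : ℝ, ∑ z, π y * P y z * ((dens P π x (s + 1) y - dens P π x s z) * c)
          = π y * c * (dens P π x (s + 1) y * ∑ z, P y z - ∑ z, P y z * dens P π x s z) := by
        intro c
        rw [Finset.mul_sum, ← Finset.sum_sub_distrib, Finset.mul_sum]
        apply Finset.sum_congr rfl
        intro z _
        ring
      rw [hgen (G y), hch.row_sum, ← dens_succ]
      ring
    have a4 : ∑ y, ∑ z, π y * P y z *
        ((dens P π x (s + 1) y - dens P π x s z) * (g z - G y))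
        = ∑ y, ∑ z, π y * P y z * (dens P π x (s + 1) y * g z)
          - ∑ y, ∑ z, π y * P y z * (dens P π x s z * g z)
          - ∑ y, ∑ z, π y * P y z * ((dens P π x (s + 1) y - dens P π x s z) * G y) := by
      simp only [← Finset.sum_sub_distrib]
      apply Finset.sum_congr rfl
      intro y _
      apply Finset.sum_congr rfl
      intro z _
      ring
    rw [a4, a3, ← a1, ← a2, sub_zero, ← Finset.sum_sub_distrib]
    apply Finset.sum_congr rfl
    intro z _
    ring
  -- second term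
  have e2 : ∑ y, (P ^ (s + 1)) x y * (∑ z, P y z * g z ^ 2 - (∑ z, P y z * g z) ^ 2)
      = ∑ y, ∑ z, π y * P y z * (dens P π x (s + 1) y * (g z - G y) ^ 2) := by
    apply Finset.sum_congr rfl
    intro y _
    have b1 : ∑ z, P y z * (g z - G y) ^ 2 = ∑ z, P y z * g z ^ 2 - (∑ z, P y z * g z) ^ 2 := by
      have : ∀ z, P y z * (g z - G y) ^ 2
          = P y z * g z ^ 2 - 2 * G y * (P y z * g z) + G y ^ 2 * P y z := by
        intro z
        ring
      simp only [this, Finset.sum_add_distrib, Finset.sum_sub_distrib, ← Finset.mul_sum,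
        hch.row_sum]
      change ∑ z, P y z * g z ^ 2 - 2 * G y * G y + G y ^ 2 * 1 = ∑ z, P y z * g z ^ 2 - G y ^ 2
      ring
    rw [← b1, ← pi_mul_dens hch, Finset.mul_sum]
    apply Finset.sum_congr rfl
    intro z _
    ring
  rw [e1, e2, ← kl_identity hch]
  simp only [Finset.mul_sum, ← Finset.sum_sub_distrib]
  apply Finset.sum_le_sum
  intro y _
  apply Finset.sum_le_sum
  intro z _
  have hw : 0 ≤ π y * P y z := mul_nonneg (hch.pi_nonneg y) (hch.nonneg y z)
  rcases hw.eq_or_lt with h0 | h0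
  · rw [← h0]
    simp
  · have hPpos : 0 < P y z := by
      rcases (hch.nonneg y z).eq_or_lt with h | h
      · rw [← h, mul_zero] at h0
        exact absurd h0 (lt_irrefl _)
      · exact h
    have hab : dens P π x (s + 1) y = 0 → dens P π x s z = 0 := by
      intro hd
      rw [dens_succ] at hd
      have h1 : ∀ w ∈ (Finset.univ : Finset S), 0 ≤ P y w * dens P π x s w :=
        fun w _ => mul_nonneg (hch.nonneg y w) (dens_nonneg hch x s w)
      have h2 := (Finset.sum_eq_zero_iff_of_nonneg h1).mp hd z (Finset.mem_univ _)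
      rcases mul_eq_zero.mp h2 with h3 | h3
      · exact absurd h3 hPpos.ne'
      · exact h3
    have hΔ : |g z - G y| ≤ 2 := by
      calc |g z - G y| ≤ |g z| + |G y| := abs_sub _ _
        _ ≤ 1 + 1 := add_le_add (hg z) (hGabs y)
        _ = 2 := by norm_num
    have hp := pointwise_gen hR hR0 hlam (dens_nonneg hch x s z) (dens_nonneg hch x (s + 1) y)
      hab hΔ
    have h3 := mul_le_mul_of_nonneg_left hp hw
    rw [← hK] at h3
    linarith

theorem gen_bound (hch : IsReversibleChain P π) {R lam : ℝ} (hR : 2 ≤ Real.log R) (hR0 : 0 < R)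
    (hlam : 0 < lam) (x : S) (s : ℕ) (g : S → ℝ) (hg : ∀ z, |g z| ≤ 1) :
    ∑ z, (s : ℝ) * ((P ^ (s + 1)) x z - (P ^ (s - 1)) x z) * g z
      - lam / 2 * ∑ z, (P ^ (s + 1)) x z * g z ^ 2
      ≤ ((1 + √R) ^ 2 / (2 * lam) + 4 / Real.log R) * (ent P π x 0 - ent P π x s) := by
  induction s generalizing g with
  | zero =>
    simp only [Nat.cast_zero, zero_mul, Finset.sum_const_zero, zero_sub, sub_self, mul_zero]
    have : 0 ≤ ∑ z, (P ^ (0 + 1)) x z * g z ^ 2 :=
      Finset.sum_nonneg fun z _ => mul_nonneg (pow_entry_nonneg hch.nonneg _ x z) (sq_nonneg _)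
    have h2 : 0 ≤ lam / 2 * ∑ z, (P ^ (0 + 1)) x z * g z ^ 2 := by positivity
    linarith
  | succ s ih =>
    have hG : ∀ y, |∑ z, P y z * g z| ≤ 1 := by
      intro y
      calc |∑ z, P y z * g z| ≤ ∑ z, |P y z * g z| := Finset.abs_sum_le_sum_abs _ _
        _ ≤ ∑ z, P y z * 1 := by
            apply Finset.sum_le_sum
            intro z _
            rw [abs_mul, abs_of_nonneg (hch.nonneg y z)]
            exact mul_le_mul_of_nonneg_left (hg z) (hch.nonneg y z)
        _ = 1 := by rw [← Finset.sum_mul, hch.row_sum, one_mul]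
    have hih := ih (fun w => ∑ z, P w z * g z) hG
    have hone := gen_step hch hR hR0 hlam x s g hg
    have e0 : ∀ z, ((s + 1 : ℕ) : ℝ) * ((P ^ (s + 1 + 1)) x z - (P ^ (s + 1 - 1)) x z)
        = ∑ w, (s : ℝ) * ((P ^ (s + 1)) x w - (P ^ (s - 1)) x w) * P w z
          + ((P ^ (s + 2)) x z - (P ^ s) x z) := by
      intro z
      rw [Nat.add_sub_cancel]
      have : ∑ w, (s : ℝ) * ((P ^ (s + 1)) x w - (P ^ (s - 1)) x w) * P w z
          = (s : ℝ) * ((P ^ (s + 2)) x z - (P ^ s) x z) := by
        rcases Nat.eq_zero_or_pos s with hs | hs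
        · subst hs
          simp
        · obtain ⟨r, rfl⟩ : ∃ r, s = r + 1 := ⟨s - 1, by omega⟩
          rw [Nat.add_sub_cancel, show r + 1 + 2 = (r + 2) + 1 from rfl,
            pow_succ_entry x (r + 2) z]
          conv_rhs => rw [pow_succ_entry x r z]
          rw [← Finset.sum_sub_distrib, Finset.mul_sum]
          apply Finset.sum_congr rfl
          intro w _
          ring
      rw [this]
      push_cast
      ring
    have e1 : ∑ z, ((s + 1 : ℕ) : ℝ) * ((P ^ (s + 1 + 1)) x z - (P ^ (s + 1 - 1)) x z) * g z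
        = ∑ w, (s : ℝ) * ((P ^ (s + 1)) x w - (P ^ (s - 1)) x w) * (∑ z, P w z * g z)
          + ∑ z, ((P ^ (s + 2)) x z - (P ^ s) x z) * g z := by
      have a1 : ∑ z, (∑ w, (s : ℝ) * ((P ^ (s + 1)) x w - (P ^ (s - 1)) x w) * P w z) * g z
          = ∑ w, (s : ℝ) * ((P ^ (s + 1)) x w - (P ^ (s - 1)) x w) * (∑ z, P w z * g z) := by
        simp only [Finset.sum_mul, Finset.mul_sum]
        rw [Finset.sum_comm]
        apply Finset.sum_congr rfl
        intro w _
        apply Finset.sum_congr rfl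
        intro z _
        ring
      rw [← a1, ← Finset.sum_add_distrib]
      apply Finset.sum_congr rfl
      intro z _
      rw [e0 z]
      ring
    have e2 : ∑ z, (P ^ (s + 1 + 1)) x z * g z ^ 2
        = ∑ w, (P ^ (s + 1)) x w * (∑ z, P w z * g z) ^ 2
          + ∑ w, (P ^ (s + 1)) x w * (∑ z, P w z * g z ^ 2 - (∑ z, P w z * g z) ^ 2) := by
      have a2 : ∑ z, (P ^ (s + 1 + 1)) x z * g z ^ 2
          = ∑ w, (P ^ (s + 1)) x w * (∑ z, P w z * g z ^ 2) := by
        simp only [pow_succ_entry x (s + 1), Finset.sum_mul, Finset.mul_sum]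
        rw [Finset.sum_comm]
        apply Finset.sum_congr rfl
        intro w _
        apply Finset.sum_congr rfl
        intro z _
        ring
      rw [a2, ← Finset.sum_add_distrib]
      apply Finset.sum_congr rfl
      intro w _
      ring
    rw [e1, e2]
    set K : ℝ := (1 + √R) ^ 2 / (2 * lam) + 4 / Real.log R
    have hK : K * (ent P π x 0 - ent P π x (s + 1))
        = K * (ent P π x 0 - ent P π x s) + K * (ent P π x s - ent P π x (s + 1)) := by ring
    rw [hK]
    linarith

/-- two-step time regularity for arbitrary reversible chains -/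
theorem tv_gen (hch : IsReversibleChain P π) {R lam : ℝ} (hR : 2 ≤ Real.log R) (hR0 : 0 < R)
    (hlam : 0 < lam) (x : S) (s : ℕ) :
    ∑ z, |((s + 1 : ℕ) : ℝ) * ((P ^ (s + 2)) x z - (P ^ s) x z)|
      ≤ lam / 2 + ((1 + √R) ^ 2 / (2 * lam) + 4 / Real.log R) *
        max 1 (Real.log (1 / π x)) := by
  set K : ℝ := (1 + √R) ^ 2 / (2 * lam) + 4 / Real.log R with hK
  have hK0 : 0 ≤ K := by
    have : 0 < Real.log R := by linarith
    positivity
  set q : S → ℝ := fun z => ((s + 1 : ℕ) : ℝ) * ((P ^ (s + 2)) x z - (P ^ s) x z) with hq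
  have hsg : ∀ z, |((SignType.sign (q z) : SignType) : ℝ)| ≤ 1 := by
    intro z
    rcases lt_trichotomy (q z) 0 with h | h | h
    · rw [sign_neg h]; norm_num
    · rw [h]; norm_num
    · rw [sign_pos h]; norm_num
  have hf := gen_bound hch hR hR0 hlam x (s + 1) (fun z => ((SignType.sign (q z) : SignType) : ℝ))
    hsg
  rw [Nat.add_sub_cancel] at hf
  have e1 : ∑ z, ((s + 1 : ℕ) : ℝ) * ((P ^ (s + 1 + 1)) x z - (P ^ s) x z) *
      ((SignType.sign (q z) : SignType) : ℝ) = ∑ z, |q z| := by
    apply Finset.sum_congr rfl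
    intro z _
    exact self_mul_sign (q z)
  have e2 : ∑ z, (P ^ (s + 1 + 1)) x z * ((SignType.sign (q z) : SignType) : ℝ) ^ 2 ≤ 1 := by
    calc ∑ z, (P ^ (s + 1 + 1)) x z * ((SignType.sign (q z) : SignType) : ℝ) ^ 2
        ≤ ∑ z, (P ^ (s + 1 + 1)) x z * 1 := by
          apply Finset.sum_le_sum
          intro z _
          apply mul_le_mul_of_nonneg_left _ (pow_entry_nonneg hch.nonneg _ x z)
          rw [sq_le_one_iff_abs_le_one]
          exact hsg z
      _ = 1 := by rw [← Finset.sum_mul, pow_row_sum hch.row_sum, one_mul]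
  rw [e1] at hf
  have h3 : K * (ent P π x 0 - ent P π x (s + 1)) ≤ K * max 1 (Real.log (1 / π x)) := by
    apply mul_le_mul_of_nonneg_left _ hK0
    have h4 := ent_nonneg hch x (s + 1)
    have h5 := le_max_right 1 (Real.log (1 / π x))
    rw [ent_zero hch]
    linarith
  have h4 : lam / 2 * ∑ z, (P ^ (s + 1 + 1)) x z * ((SignType.sign (q z) : SignType) : ℝ) ^ 2
      ≤ lam / 2 * 1 := mul_le_mul_of_nonneg_left e2 (by positivity)
  linarith

theorem hit_window_two (hch : IsReversibleChain P π) (x y : S) (a t : ℕ) :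
    ((t - a : ℕ) : ℝ) * hitProb P x y t ≤
      2 + ∑ r ∈ Finset.Ico a (t - 1), ∑ z, |(P ^ (r + 2)) x z - (P ^ r) x z| := by
  set M : S → ℝ := fun z => (P ^ a) x z + (P ^ (a + 1)) x z +
    ∑ r ∈ Finset.Ico a (t - 1), |(P ^ (r + 2)) x z - (P ^ r) x z| with hM
  have hp1 : ∀ z s, a ≤ s → (P ^ s) x z ≤ (P ^ a) x z + (P ^ (a + 1)) x z +
      ∑ r ∈ Finset.Ico a (s - 1), |(P ^ (r + 2)) x z - (P ^ r) x z| := by
    intro z s
    induction s using Nat.strong_induction_on with
    | _ s ih =>
      intro has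
      rcases Nat.lt_or_ge s (a + 2) with h | h
      · have hcases : s = a ∨ s = a + 1 := by omega
        have h0 : 0 ≤ ∑ r ∈ Finset.Ico a (s - 1), |(P ^ (r + 2)) x z - (P ^ r) x z| :=
          Finset.sum_nonneg fun r _ => abs_nonneg _
        have h1 := pow_entry_nonneg hch.nonneg a x z
        have h2 := pow_entry_nonneg hch.nonneg (a + 1) x z
        rcases hcases with rfl | rfl <;> linarith
      · obtain ⟨r, rfl⟩ : ∃ r, s = r + 2 := ⟨s - 2, by omega⟩
        have h1 := ih r (by omega) (by omega)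
        have h2 : ∑ i ∈ Finset.Ico a (r - 1), |(P ^ (i + 2)) x z - (P ^ i) x z| ≤
            ∑ i ∈ Finset.Ico a r, |(P ^ (i + 2)) x z - (P ^ i) x z| := by
          apply Finset.sum_le_sum_of_subset_of_nonneg
          · apply Finset.Ico_subset_Ico_right
            omega
          · intro i _ _
            exact abs_nonneg _
        have h3 : r + 2 - 1 = r + 1 := by omega
        rw [h3, Finset.sum_Ico_succ_top (by omega)]
        have h4 := le_abs_self ((P ^ (r + 2)) x z - (P ^ r) x z)
        linarith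
  have hp : ∀ z, ∀ s ∈ Finset.Ico a t, (P ^ s) x z ≤ M z := by
    intro z s hs
    rw [Finset.mem_Ico] at hs
    refine le_trans (hp1 z s hs.1) ?_
    rw [hM]
    apply add_le_add_right
    apply Finset.sum_le_sum_of_subset_of_nonneg
    · apply Finset.Ico_subset_Ico_right
      omega
    · intro r _ _
      exact abs_nonneg _
  calc ((t - a : ℕ) : ℝ) * hitProb P x y t
      = ∑ s ∈ Finset.Ico a t, hitProb P x y t := by simp
    _ ≤ ∑ s ∈ Finset.Ico a t, ∑ z, (P ^ s) x z * hitProb P z y (t - s) := by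
        apply Finset.sum_le_sum
        intro s hs
        rw [Finset.mem_Ico] at hs
        have := hitProb_le_sum hch x y s (t - s)
        rwa [Nat.add_sub_cancel' hs.2.le] at this
    _ ≤ ∑ s ∈ Finset.Ico a t, ∑ z, M z * hitProb P z y (t - s) := by
        apply Finset.sum_le_sum
        intro s hs
        apply Finset.sum_le_sum
        intro z _
        exact mul_le_mul_of_nonneg_right (hp z s hs) (hitProb_nonneg hch.nonneg _ _ _)
    _ = ∑ z, M z * ∑ s ∈ Finset.Ico a t, hitProb P z y (t - s) := by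
        rw [Finset.sum_comm]
        simp only [Finset.mul_sum]
    _ ≤ ∑ z, M z * 1 := by
        apply Finset.sum_le_sum
        intro z _
        apply mul_le_mul_of_nonneg_left (sum_hit_shift hch z y a t)
        exact add_nonneg (add_nonneg (pow_entry_nonneg hch.nonneg _ _ _)
          (pow_entry_nonneg hch.nonneg _ _ _)) (Finset.sum_nonneg fun r _ => abs_nonneg _)
    _ = 2 + ∑ r ∈ Finset.Ico a (t - 1), ∑ z, |(P ^ (r + 2)) x z - (P ^ r) x z| := by
        simp only [mul_one, hM]
        rw [Finset.sum_add_distrib, Finset.sum_add_distrib, pow_row_sum hch.row_sum,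
          pow_row_sum hch.row_sum, Finset.sum_comm]
        norm_num

theorem hit_bound_gen (hch : IsReversibleChain P π) (x y : S) (t : ℕ) (ht : 1 ≤ t) :
    hitProb P x y t ≤ 80 / t * (max 1 (Real.log (1 / π x)) /
      Real.log (1 + max 1 (Real.log (1 / π x)))) := by
  set M : ℝ := max 1 (Real.log (1 / π x)) with hM
  have hM1 : 1 ≤ M := le_max_left _ _
  have hM0 : 0 < M := by linarith
  set l : ℝ := Real.log (1 + M) with hl
  have hl0 : 0 < l := Real.log_pos (by linarith)
  -- the choice of the cut-off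
  set A : ℝ := √(√(1 + M)) with hA
  have hA1 : 1 ≤ A := by
    rw [hA, Real.one_le_sqrt, Real.one_le_sqrt]
    linarith
  have hA4 : A ^ 4 = 1 + M := by
    have h1 : A ^ 2 = √(1 + M) := Real.sq_sqrt (Real.sqrt_nonneg _)
    calc A ^ 4 = (A ^ 2) ^ 2 := by ring
      _ = 1 + M := by rw [h1, Real.sq_sqrt (by linarith)]
  have hlA : l = 4 * Real.log A := by
    rw [hl, ← hA4, Real.log_pow]
    norm_num
  set R : ℝ := Real.exp 2 * A ^ 2 with hR
  have hR0 : 0 < R := by positivity
  have hlogR : Real.log R = 2 + l / 2 := by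
    rw [hR, Real.log_mul (Real.exp_pos _).ne' (by positivity), Real.log_exp, Real.log_pow, hlA]
    push_cast
    ring
  have hR2 : 2 ≤ Real.log R := by
    rw [hlogR]
    linarith
  have he : Real.exp 1 ≤ 2.7183 := by
    have := Real.exp_one_lt_d9
    linarith
  have hsR : √R = Real.exp 1 * A := by
    rw [hR]
    have : Real.exp 2 * A ^ 2 = (Real.exp 1 * A) ^ 2 := by
      rw [mul_pow, ← Real.exp_nat_mul]
      norm_num
    rw [this, Real.sqrt_sq (by positivity)]
  set lam : ℝ := (1 + √R) * A ^ 2 with hlam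
  have hlam0 : 0 < lam := by positivity
  have hMA : M ≤ A ^ 4 := by rw [hA4]; linarith
  -- the regularity constant
  set B : ℝ := lam / 2 + ((1 + √R) ^ 2 / (2 * lam) + 4 / Real.log R) * M with hB
  have h1 : (1 + √R) ^ 2 / (2 * lam) * M ≤ (1 + √R) * A ^ 2 / 2 := by
    rw [hlam]
    rw [div_mul_eq_mul_div, div_le_iff₀ (by positivity)]
    have : (1 + √R) ^ 2 * M ≤ (1 + √R) ^ 2 * A ^ 4 :=
      mul_le_mul_of_nonneg_left hMA (sq_nonneg _)
    calc (1 + √R) ^ 2 * M ≤ (1 + √R) ^ 2 * A ^ 4 := this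
      _ = (1 + √R) * A ^ 2 / 2 * (2 * ((1 + √R) * A ^ 2)) := by ring
  have h2 : 4 / Real.log R * M ≤ 8 * (M / l) := by
    have h3 : 4 / Real.log R ≤ 8 / l := by
      rw [div_le_div_iff₀ (by linarith) hl0, hlogR]
      linarith
    calc 4 / Real.log R * M ≤ 8 / l * M := mul_le_mul_of_nonneg_right h3 hM0.le
      _ = 8 * (M / l) := by ring
  have h3 : (1 + √R) * A ^ 2 ≤ 3.7183 * A ^ 3 := by
    rw [hsR]
    have : 1 + Real.exp 1 * A ≤ 3.7183 * A := by nlinarith
    calc (1 + Real.exp 1 * A) * A ^ 2 ≤ (3.7183 * A) * A ^ 2 :=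
          mul_le_mul_of_nonneg_right this (sq_nonneg _)
      _ = 3.7183 * A ^ 3 := by ring
  have h4 : A ^ 3 ≤ 8 * (M / l) := by
    have h5 : l ≤ 4 * A := by
      rw [hlA]
      have := Real.log_le_sub_one_of_pos (show 0 < A by linarith)
      linarith
    have h6 : A ^ 3 * l ≤ 8 * M := by
      calc A ^ 3 * l ≤ A ^ 3 * (4 * A) := mul_le_mul_of_nonneg_left h5 (by positivity)
        _ = 4 * A ^ 4 := by ring
        _ = 4 * (1 + M) := by rw [hA4]
        _ ≤ 8 * M := by linarith
    rw [← mul_div_assoc, le_div_iff₀ hl0]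
    exact h6
  have hBle : B ≤ 38 * (M / l) := by
    have e : B = (1 + √R) * A ^ 2 / 2 + (1 + √R) ^ 2 / (2 * lam) * M + 4 / Real.log R * M := by
      rw [hB, hlam]
      ring
    rw [e]
    have h7 : 0 ≤ M / l := by positivity
    linarith
  have htv : ∀ r, ∑ z, |(P ^ (r + 2)) x z - (P ^ r) x z| ≤ B * (1 / ((r + 1 : ℕ) : ℝ)) := by
    intro r
    have g1 := tv_gen hch hR2 hR0 hlam0 x r
    have hr : (0 : ℝ) < ((r + 1 : ℕ) : ℝ) := by positivity
    have g2 : ∑ z, |((r + 1 : ℕ) : ℝ) * ((P ^ (r + 2)) x z - (P ^ r) x z)|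
        = ((r + 1 : ℕ) : ℝ) * ∑ z, |(P ^ (r + 2)) x z - (P ^ r) x z| := by
      rw [Finset.mul_sum]
      apply Finset.sum_congr rfl
      intro z _
      rw [abs_mul, abs_of_pos hr]
    rw [g2] at g1
    rw [mul_one_div, le_div_iff₀ hr, mul_comm]
    exact g1
  have hB0 : 0 ≤ B := by
    rw [hB]
    have : 0 < Real.log R := by linarith
    positivity
  have hsum : ∑ r ∈ Finset.Ico (t / 2) (t - 1), ∑ z, |(P ^ (r + 2)) x z - (P ^ r) x z| ≤
      B * Real.log 2 := by
    calc ∑ r ∈ Finset.Ico (t / 2) (t - 1), ∑ z, |(P ^ (r + 2)) x z - (P ^ r) x z|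
        ≤ ∑ r ∈ Finset.Ico (t / 2) (t - 1), B * (1 / ((r + 1 : ℕ) : ℝ)) :=
          Finset.sum_le_sum fun r _ => htv r
      _ = B * ∑ r ∈ Finset.Ico (t / 2) (t - 1), 1 / ((r + 1 : ℕ) : ℝ) := by
          rw [Finset.mul_sum]
      _ ≤ B * Real.log 2 :=
          mul_le_mul_of_nonneg_left (harmonic_window t) hB0
  have hw := hit_window_two hch x y (t / 2) t
  have ht0 : (0 : ℝ) < t := by exact_mod_cast ht
  have hf0 : 0 ≤ hitProb P x y t := hitProb_nonneg hch.nonneg _ _ _
  have hhalf : (t : ℝ) / 2 ≤ ((t - t / 2 : ℕ) : ℝ) := by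
    have : t ≤ 2 * (t - t / 2) := by omega
    have h2 : (t : ℝ) ≤ 2 * ((t - t / 2 : ℕ) : ℝ) := by exact_mod_cast this
    linarith
  have h5 : (t : ℝ) / 2 * hitProb P x y t ≤ 2 + B * Real.log 2 := by
    have := mul_le_mul_of_nonneg_right hhalf hf0
    linarith
  have hl2 := Real.log_two_lt_d9
  have hMl : 1 ≤ M / l := by
    rw [one_le_div hl0, hl]
    have := Real.log_le_sub_one_of_pos (show 0 < 1 + M by linarith)
    linarith
  have h6 : 2 + B * Real.log 2 ≤ 40 * (M / l) := by
    have h7 : B * Real.log 2 ≤ (38 * (M / l)) * 1 := by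
      apply mul_le_mul hBle (by linarith) (Real.log_nonneg (by norm_num)) (by positivity)
    linarith
  have h8 : 80 / (t : ℝ) * (M / l) = (40 * (M / l)) / ((t : ℝ) / 2) := by
    field_simp
    norm_num
  rw [h8, le_div_iff₀ (by positivity), mul_comm]
  linarith

end Pool.Agent.MP_e25d14_pr
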