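import Mathlib

/-! Two-point inequalities for `x log x`. -/

namespace Pool.Agent.MP_e25d14_pr

open Real

/-- `φ x = x log x` -/
noncomputable def phi (x : ℝ) : ℝ := x * Real.log x

theorem log_ratio_ge {u : ℝ} (h0 : 0 ≤ u) (h1 : u < 1) : 2 * u ≤ Real.log (1 + u) - Real.log (1 - u) := by
  have habs : |u| < 1 := by rwa [abs_of_nonneg h0]
  have hs := Real.hasSum_log_sub_log_of_abs_lt_one habs
  have h2 : (fun k : ℕ => 2 * (1 / (2 * (k : ℝ) + 1)) * u ^ (2 * k + 1)) 0 ≤
      Real.log (1 + u) - Real.log (1 - u) := by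
    apply le_hasSum hs 0
    intro k _
    positivity
  simpa using h2

theorem psi_ge {u : ℝ} (h0 : 0 ≤ u) (h1 : u ≤ 1) :
    u ^ 2 ≤ (1 + u) * Real.log (1 + u) + (1 - u) * Real.log (1 - u) := by
  set f : ℝ → ℝ := fun u => (1 + u) * Real.log (1 + u) + (1 - u) * Real.log (1 - u) - u ^ 2 with hf
  have hcont : Continuous f := by
    rw [hf]
    have hc : Continuous (fun x : ℝ => x * Real.log x) := Real.continuous_mul_log
    have h1' : Continuous (fun u : ℝ => (1 + u) * Real.log (1 + u)) :=
      hc.comp (by fun_prop)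
    have h2' : Continuous (fun u : ℝ => (1 - u) * Real.log (1 - u)) :=
      hc.comp (by fun_prop)
    exact (h1'.add h2').sub (by fun_prop)
  have hmono : MonotoneOn f (Set.Icc 0 1) := by
    apply monotoneOn_of_deriv_nonneg (convex_Icc 0 1) hcont.continuousOn
    · rw [interior_Icc]
      intro x hx
      have hx1 : 1 + x ≠ 0 := by linarith [hx.1]
      have hx2 : 1 - x ≠ 0 := by linarith [hx.2]
      apply DifferentiableAt.differentiableWithinAt
      rw [hf]
      fun_prop (disch := assumption)
    · rw [interior_Icc]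
      intro x hx
      have hx1 : 0 < 1 + x := by linarith [hx.1]
      have hx2 : 0 < 1 - x := by linarith [hx.2]
      have hd : HasDerivAt f (Real.log (1 + x) - Real.log (1 - x) - 2 * x) x := by
        have e1 : HasDerivAt (fun u : ℝ => 1 + u) 1 x := by
          simpa using (hasDerivAt_id x).const_add 1
        have e2 : HasDerivAt (fun u : ℝ => 1 - u) (-1) x := by
          simpa using (hasDerivAt_id x).const_sub 1
        have d1 := e1.mul (e1.log hx1.ne')
        have d2 := e2.mul (e2.log hx2.ne')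
        have d3 : HasDerivAt (fun u : ℝ => u ^ 2) (2 * x) x := by
          simpa using hasDerivAt_pow 2 x
        have d := (d1.add d2).sub d3
        have h3 : (1 + x) * (1 / (1 + x)) = 1 := by field_simp
        have h4 : (1 - x) * (-1 / (1 - x)) = -1 := by field_simp
        have h5 : (1 * Real.log (1 + x) + (1 + x) * (1 / (1 + x))) +
            (-1 * Real.log (1 - x) + (1 - x) * (-1 / (1 - x))) - 2 * x
            = Real.log (1 + x) - Real.log (1 - x) - 2 * x := by
          rw [h3, h4]
          ring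
        rw [← h5]
        exact d
      rw [hd.deriv]
      have := log_ratio_ge hx.1.le hx.2
      linarith
  have h := hmono (Set.left_mem_Icc.mpr zero_le_one) ⟨h0, h1⟩ h0
  simp only [hf] at h
  simp at h
  linarith

theorem psi_ge' {u : ℝ} (h1 : |u| ≤ 1) :
    u ^ 2 ≤ (1 + u) * Real.log (1 + u) + (1 - u) * Real.log (1 - u) := by
  rcases le_total 0 u with h | h
  · exact psi_ge h (by rwa [abs_of_nonneg h] at h1)
  · have := psi_ge (u := -u) (by linarith) (by rwa [abs_of_nonpos h] at h1)
    simp only [neg_sq, ← sub_eq_add_neg, sub_neg_eq_add] at this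
    linarith

/-- uniform convexity of `x log x`, midpoint form -/
theorem phi_mid {a b : ℝ} (ha : 0 ≤ a) (hb : 0 ≤ b) :
    phi ((a + b) / 2) ≤ (phi a + phi b) / 2 - (a - b) ^ 2 / (4 * (a + b)) := by
  rcases eq_or_lt_of_le (add_nonneg ha hb) with h | h
  · have ha0 : a = 0 := by linarith
    have hb0 : b = 0 := by linarith
    subst ha0; subst hb0
    simp [phi]
  · set m := (a + b) / 2 with hm
    have hm0 : 0 < m := by rw [hm]; linarith
    set u := (a - b) / (a + b) with hu
    have hua : a = m * (1 + u) := by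
      rw [hm, hu]; field_simp; ring
    have hub : b = m * (1 - u) := by
      rw [hm, hu]; field_simp; ring
    have habs : |u| ≤ 1 := by
      rw [hu, abs_div, abs_of_pos h, div_le_one h, abs_le]
      constructor <;> linarith
    have key := psi_ge' habs
    have e1 : phi a = m * (1 + u) * Real.log m + m * ((1 + u) * Real.log (1 + u)) := by
      rcases eq_or_ne (1 + u) 0 with h0 | h0
      · rw [hua, h0]; simp [phi]
      · rw [hua]; unfold phi; rw [Real.log_mul hm0.ne' h0]; ring
    have e2 : phi b = m * (1 - u) * Real.log m + m * ((1 - u) * Real.log (1 - u)) := by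
      rcases eq_or_ne (1 - u) 0 with h0 | h0
      · rw [hub, h0]; simp [phi]
      · rw [hub]; unfold phi; rw [Real.log_mul hm0.ne' h0]; ring
    have e3 : (a - b) ^ 2 / (4 * (a + b)) = m / 2 * u ^ 2 := by
      rw [hm, hu]; field_simp; ring
    rw [e1, e2, e3]
    unfold phi
    nlinarith

theorem phi_convex : ConvexOn ℝ (Set.Ici 0) phi := Real.convexOn_mul_log

/-- uniform convexity of `x log x`, weighted form -/
theorem phi_weighted {γ a b : ℝ} (hγ0 : 0 ≤ γ) (hγ1 : γ ≤ 1 / 2) (ha : 0 ≤ a) (hb : 0 ≤ b) :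
    phi (γ * a + (1 - γ) * b) ≤ γ * phi a + (1 - γ) * phi b
      - γ / 2 * ((a - b) ^ 2 / (a + b)) := by
  have h1 : γ * a + (1 - γ) * b = (2 * γ) * ((a + b) / 2) + (1 - 2 * γ) * b := by ring
  have h2 : phi ((2 * γ) * ((a + b) / 2) + (1 - 2 * γ) * b) ≤
      (2 * γ) * phi ((a + b) / 2) + (1 - 2 * γ) * phi b := by
    have := phi_convex.2 (show (a + b) / 2 ∈ Set.Ici (0 : ℝ) from by
      simp only [Set.mem_Ici]; positivity) (show b ∈ Set.Ici (0 : ℝ) from hb)
      (show (0 : ℝ) ≤ 2 * γ by positivity) (show (0 : ℝ) ≤ 1 - 2 * γ by linarith) (by ring)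
    simpa [smul_eq_mul] using this
  have h3 := phi_mid ha hb
  have h4 : (2 * γ) * phi ((a + b) / 2) ≤ (2 * γ) * ((phi a + phi b) / 2 - (a - b) ^ 2 / (4 * (a + b))) :=
    mul_le_mul_of_nonneg_left h3 (by positivity)
  have h5 : (a - b) ^ 2 / (4 * (a + b)) = (a - b) ^ 2 / (a + b) / 4 := by
    rw [div_div, mul_comm 4]
  rw [h5] at h4
  rw [h1]
  linarith

end Pool.Agent.MP_e25d14_pr
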