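import Pool.Agent.MP_e25d14_pr.Basic
import Pool.Agent.MP_e25d14_pr.TwoPoint

/-! Entropy dissipation and time regularity of reversible chains with holding. -/

namespace Pool.Agent.MP_e25d14_pr

open Finset

variable {S : Type} [Fintype S] [DecidableEq S] {P : Matrix S S ℝ} {π : S → ℝ}

theorem pow_entry_nonneg (hP : ∀ u v, 0 ≤ P u v) (n : ℕ) (u v : S) : 0 ≤ (P ^ n) u v := by
  induction n generalizing u v with
  | zero =>
    rw [pow_zero, Matrix.one_apply]
    split_ifs <;> norm_num
  | succ n ih =>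
    rw [pow_succ, Matrix.mul_apply]
    exact Finset.sum_nonneg fun w _ => mul_nonneg (ih u w) (hP w v)

theorem pow_row_sum (hrow : ∀ u, ∑ v, P u v = 1) (n : ℕ) (u : S) : ∑ v, (P ^ n) u v = 1 := by
  induction n generalizing u with
  | zero => simp [Matrix.one_apply]
  | succ n ih =>
    simp only [pow_succ, Matrix.mul_apply]
    rw [Finset.sum_comm]
    simp only [← Finset.mul_sum, hrow, mul_one, ih]

theorem pow_balance (hb : ∀ u v, π u * P u v = π v * P v u) (n : ℕ) (u v : S) :
    π u * (P ^ n) u v = π v * (P ^ n) v u := by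
  induction n generalizing u v with
  | zero =>
    rw [pow_zero, Matrix.one_apply, Matrix.one_apply]
    by_cases h : u = v
    · subst h; rfl
    · rw [if_neg h, if_neg (Ne.symm h)]; ring
  | succ n ih =>
    conv_lhs => rw [pow_succ, Matrix.mul_apply, Finset.mul_sum]
    conv_rhs => rw [pow_succ', Matrix.mul_apply, Finset.mul_sum]
    apply Finset.sum_congr rfl
    intro w _
    calc π u * ((P ^ n) u w * P w v) = (π u * (P ^ n) u w) * P w v := by ring
      _ = (π w * (P ^ n) w u) * P w v := by rw [ih]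
      _ = (π w * P w v) * (P ^ n) w u := by ring
      _ = (π v * P v w) * (P ^ n) w u := by rw [hb]
      _ = π v * (P v w * (P ^ n) w u) := by ring

theorem pi_pos (h : IsReversibleChain P π) (v : S) : 0 < π v := by
  obtain ⟨u, hu⟩ : ∃ u, 0 < π u := by
    by_contra hcon
    push Not at hcon
    have : ∑ u, π u ≤ 0 := Finset.sum_nonpos fun u _ => hcon u
    rw [h.pi_sum] at this
    linarith
  obtain ⟨n, hn⟩ := h.irred u v
  have hb := pow_balance h.balance n u v
  have h1 : 0 < π u * (P ^ n) u v := mul_pos hu hn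
  rw [hb] at h1
  rcases (h.pi_nonneg v).lt_or_eq with h2 | h2
  · exact h2
  · rw [← h2, zero_mul] at h1
    exact absurd h1 (lt_irrefl _)

theorem pi_stationary (h : IsReversibleChain P π) (w : S) : ∑ z, π z * P z w = π w := by
  calc ∑ z, π z * P z w = ∑ z, π w * P w z := Finset.sum_congr rfl fun z _ => h.balance z w
    _ = π w := by rw [← Finset.mul_sum, h.row_sum, mul_one]

theorem symm_sum (h : IsReversibleChain P π) (F : S → S → ℝ) :
    ∑ w, ∑ z, π w * P w z * F w z = ∑ w, ∑ z, π w * P w z * F z w := by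
  rw [Finset.sum_comm]
  apply Finset.sum_congr rfl
  intro w _
  apply Finset.sum_congr rfl
  intro z _
  rw [h.balance z w]

/-- the energy functional appearing on both sides -/
noncomputable def energy (P : Matrix S S ℝ) (π h : S → ℝ) : ℝ :=
  ∑ w, ∑ z, π w * P w z * ((h w - h z) ^ 2 / (h w + h z))

theorem jensen_step (hch : IsReversibleChain P π) {γ : ℝ} (hγ0 : 0 < γ) (hγ1 : γ ≤ 1 / 2)
    (hlazy : ∀ z, γ ≤ P z z) {h : S → ℝ} (hh : ∀ z, 0 ≤ h z) (z : S) :
    phi (∑ w, P z w * h w) ≤ ∑ w, P z w * phi (h w)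
      - γ / 2 / (1 - γ) * ∑ w, P z w * ((h z - h w) ^ 2 / (h z + h w)) := by
  have h1γ : 0 < 1 - γ := by linarith
  set c : S → ℝ := fun w => (P z w - if w = z then γ else 0) / (1 - γ) with hc
  have hc0 : ∀ w ∈ (Finset.univ : Finset S), 0 ≤ c w := by
    intro w _
    rw [hc]
    apply div_nonneg _ h1γ.le
    by_cases hw : w = z
    · simp only [hw, if_true]
      linarith [hlazy z]
    · simp only [hw, if_false, sub_zero]
      exact hch.nonneg z w
  have hcmul : ∀ (F : S → ℝ), (1 - γ) * ∑ w, c w * F w = ∑ w, P z w * F w - γ * F z := by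
    intro F
    have e : ∀ w, (1 - γ) * (c w * F w) = P z w * F w - (if w = z then γ * F w else 0) := by
      intro w
      rw [hc]
      by_cases hw : w = z
      · simp only [hw, if_true]
        field_simp
      · simp only [hw, if_false]
        field_simp
        ring
    rw [Finset.mul_sum]
    simp only [e]
    rw [Finset.sum_sub_distrib, Finset.sum_ite_eq' Finset.univ z (fun w => γ * F w)]
    simp
  have hc1 : ∑ w, c w = 1 := by
    have := hcmul (fun _ => 1)
    simp only [mul_one, hch.row_sum] at this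
    have h2 : (1 - γ) * (∑ w, c w) = (1 - γ) * 1 := by linarith
    exact mul_left_cancel₀ h1γ.ne' h2
  have hsum : ∑ w, P z w * h w = ∑ w, c w • (γ * h z + (1 - γ) * h w) := by
    simp only [smul_eq_mul, mul_add]
    rw [Finset.sum_add_distrib, ← Finset.sum_mul, hc1]
    have e1 : ∑ w, c w * ((1 - γ) * h w) = (1 - γ) * ∑ w, c w * h w := by
      rw [Finset.mul_sum]
      apply Finset.sum_congr rfl
      intro w _
      ring
    rw [e1, hcmul h]
    ring
  rw [hsum]
  have hj := phi_convex.map_sum_le (t := Finset.univ) (w := c)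
    (p := fun w => γ * h z + (1 - γ) * h w) hc0 hc1 (fun w _ => by
      simp only [Set.mem_Ici]
      have := hh z
      have := hh w
      positivity)
  refine le_trans hj ?_
  have hpt : ∀ w ∈ (Finset.univ : Finset S), c w • phi (γ * h z + (1 - γ) * h w) ≤
      c w * (γ * phi (h z) + (1 - γ) * phi (h w) - γ / 2 * ((h z - h w) ^ 2 / (h z + h w))) := by
    intro w hw
    rw [smul_eq_mul]
    exact mul_le_mul_of_nonneg_left (phi_weighted hγ0.le hγ1 (hh z) (hh w)) (hc0 w hw)
  refine le_trans (Finset.sum_le_sum hpt) (le_of_eq ?_)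
  have e2 : ∑ w, c w * (γ * phi (h z) + (1 - γ) * phi (h w) -
        γ / 2 * ((h z - h w) ^ 2 / (h z + h w)))
      = γ * phi (h z) * ∑ w, c w + (1 - γ) * ∑ w, c w * phi (h w)
        - γ / 2 * ∑ w, c w * ((h z - h w) ^ 2 / (h z + h w)) := by
    rw [Finset.mul_sum, Finset.mul_sum, Finset.mul_sum, ← Finset.sum_add_distrib,
      ← Finset.sum_sub_distrib]
    apply Finset.sum_congr rfl
    intro w _
    ring
  have e3 : ∑ w, c w * ((h z - h w) ^ 2 / (h z + h w))
      = (∑ w, P z w * ((h z - h w) ^ 2 / (h z + h w))) / (1 - γ) := by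
    rw [eq_div_iff h1γ.ne', mul_comm, hcmul (fun w => (h z - h w) ^ 2 / (h z + h w))]
    simp
  rw [e2, hc1, hcmul (fun w => phi (h w)), e3]
  ring

/-- entropy dissipation in one step -/
theorem entropy_drop (hch : IsReversibleChain P π) {γ : ℝ} (hγ0 : 0 < γ) (hγ1 : γ ≤ 1 / 2)
    (hlazy : ∀ z, γ ≤ P z z) {h : S → ℝ} (hh : ∀ z, 0 ≤ h z) :
    ∑ z, π z * phi (∑ w, P z w * h w) ≤ ∑ z, π z * phi (h z)
      - γ / 2 / (1 - γ) * energy P π h := by
  have h1 : ∑ z, π z * phi (∑ w, P z w * h w) ≤ ∑ z, π z * (∑ w, P z w * phi (h w)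
      - γ / 2 / (1 - γ) * ∑ w, P z w * ((h z - h w) ^ 2 / (h z + h w))) :=
    Finset.sum_le_sum fun z _ =>
      mul_le_mul_of_nonneg_left (jensen_step hch hγ0 hγ1 hlazy hh z) (hch.pi_nonneg z)
  refine le_trans h1 (le_of_eq ?_)
  have e1 : ∑ z, π z * ∑ w, P z w * phi (h w) = ∑ z, π z * phi (h z) := by
    calc ∑ z, π z * ∑ w, P z w * phi (h w) = ∑ z, ∑ w, π z * P z w * phi (h w) := by
          apply Finset.sum_congr rfl
          intro z _
          rw [Finset.mul_sum]
          apply Finset.sum_congr rfl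
          intro w _
          ring
      _ = ∑ w, ∑ z, π z * P z w * phi (h w) := Finset.sum_comm
      _ = ∑ z, π z * phi (h z) := by
          apply Finset.sum_congr rfl
          intro w _
          rw [← Finset.sum_mul, pi_stationary hch w]
  have e2 : ∑ z, π z * (∑ w, P z w * phi (h w)
      - γ / 2 / (1 - γ) * ∑ w, P z w * ((h z - h w) ^ 2 / (h z + h w)))
      = ∑ z, π z * ∑ w, P z w * phi (h w) - γ / 2 / (1 - γ) * energy P π h := by
    unfold energy
    rw [Finset.mul_sum, ← Finset.sum_sub_distrib]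
    apply Finset.sum_congr rfl
    intro z _
    rw [mul_sub]
    congr 1
    simp only [Finset.mul_sum]
    apply Finset.sum_congr rfl
    intro w _
    ring
  rw [e2, e1]

theorem variance_lower (hch : IsReversibleChain P π) {γ : ℝ}
    (hlazy : ∀ z, γ ≤ P z z) (g : S → ℝ) (w : S) :
    γ * ∑ z, P w z * (g z - g w) ^ 2 ≤ ∑ z, P w z * g z ^ 2 - (∑ z, P w z * g z) ^ 2 := by
  set D : ℝ := ∑ z, P w z * (g z - g w) with hD
  set Q : ℝ := ∑ z, P w z * (g z - g w) ^ 2 with hQ
  have e1 : ∑ z, P w z * g z = D + g w := by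
    rw [hD]
    simp only [mul_sub, Finset.sum_sub_distrib, ← Finset.sum_mul, hch.row_sum]
    ring
  have e2 : ∑ z, P w z * g z ^ 2 = Q + 2 * g w * D + g w ^ 2 := by
    rw [hQ, hD]
    have : ∀ z, P w z * g z ^ 2 = P w z * (g z - g w) ^ 2 + 2 * g w * (P w z * (g z - g w))
        + P w z * g w ^ 2 := by
      intro z
      ring
    simp only [this, Finset.sum_add_distrib, ← Finset.mul_sum, ← Finset.sum_mul, hch.row_sum]
    ring
  have hCS : D ^ 2 ≤ (1 - γ) * Q := by
    -- remove the diagonal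
    have d1 : D = ∑ z ∈ Finset.univ.erase w, P w z * (g z - g w) := by
      rw [hD, ← Finset.add_sum_erase _ _ (Finset.mem_univ w)]
      simp
    have d2 : Q = ∑ z ∈ Finset.univ.erase w, P w z * (g z - g w) ^ 2 := by
      rw [hQ, ← Finset.add_sum_erase _ _ (Finset.mem_univ w)]
      simp
    have d3 : ∑ z ∈ Finset.univ.erase w, P w z = 1 - P w w := by
      have := hch.row_sum w
      rw [← Finset.add_sum_erase _ _ (Finset.mem_univ w)] at this
      linarith
    have hcs := Finset.sum_sq_le_sum_mul_sum_of_sq_le_mul (Finset.univ.erase w)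
      (r := fun z => P w z * (g z - g w)) (f := fun z => P w z)
      (g := fun z => P w z * (g z - g w) ^ 2) (fun z _ => hch.nonneg w z)
      (fun z _ => mul_nonneg (hch.nonneg w z) (sq_nonneg _)) (fun z _ => le_of_eq (by ring))
    rw [d1]
    refine le_trans hcs ?_
    rw [d3, ← d2]
    apply mul_le_mul_of_nonneg_right
    · linarith [hlazy w]
    · rw [hQ]
      exact Finset.sum_nonneg fun z _ => mul_nonneg (hch.nonneg w z) (sq_nonneg _)
  rw [e1, e2]
  nlinarith

theorem pointwise_ineq {γ : ℝ} (hγ0 : 0 < γ) {a b : ℝ} (ha : 0 ≤ a) (hb : 0 ≤ b) (Δ : ℝ) :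
    (a - b) * Δ - γ / 2 * (a + b) * Δ ^ 2 ≤ 1 / (2 * γ) * ((a - b) ^ 2 / (a + b)) := by
  rcases eq_or_lt_of_le (add_nonneg ha hb) with h | h
  · have ha0 : a = 0 := by linarith
    have hb0 : b = 0 := by linarith
    subst ha0; subst hb0
    simp
  · have e : 1 / (2 * γ) * ((a - b) ^ 2 / (a + b)) - ((a - b) * Δ - γ / 2 * (a + b) * Δ ^ 2)
        = ((a - b) - γ * (a + b) * Δ) ^ 2 / (2 * γ * (a + b)) := by
      field_simp
      ring
    have h2 : 0 ≤ ((a - b) - γ * (a + b) * Δ) ^ 2 / (2 * γ * (a + b)) := by positivity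
    linarith

theorem fisher_step (hch : IsReversibleChain P π) {γ : ℝ} (hγ0 : 0 < γ)
    (hlazy : ∀ z, γ ≤ P z z) {h : S → ℝ} (hh : ∀ z, 0 ≤ h z) (g : S → ℝ) :
    2 * ∑ w, π w * h w * (∑ z, P w z * g z - g w)
      - ∑ w, π w * h w * (∑ z, P w z * g z ^ 2 - (∑ z, P w z * g z) ^ 2)
      ≤ 1 / (2 * γ) * energy P π h := by
  have hvar : ∑ w, π w * h w * (γ * ∑ z, P w z * (g z - g w) ^ 2) ≤
      ∑ w, π w * h w * (∑ z, P w z * g z ^ 2 - (∑ z, P w z * g z) ^ 2) :=
    Finset.sum_le_sum fun w _ => mul_le_mul_of_nonneg_left (variance_lower hch hlazy g w)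
      (mul_nonneg (hch.pi_nonneg w) (hh w))
  have e1 : ∑ w, π w * h w * (∑ z, P w z * g z - g w)
      = ∑ w, ∑ z, π w * P w z * (h w * (g z - g w)) := by
    apply Finset.sum_congr rfl
    intro w _
    have : ∑ z, P w z * g z - g w = ∑ z, P w z * (g z - g w) := by
      simp only [mul_sub, Finset.sum_sub_distrib, ← Finset.sum_mul, hch.row_sum]
      ring
    rw [this, Finset.mul_sum]
    apply Finset.sum_congr rfl
    intro z _
    ring
  have e2 : ∑ w, ∑ z, π w * P w z * (h w * (g z - g w))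
      = ∑ w, ∑ z, π w * P w z * (h z * (g w - g z)) :=
    symm_sum hch (fun w z => h w * (g z - g w))
  have e3 : ∑ w, π w * h w * (γ * ∑ z, P w z * (g z - g w) ^ 2)
      = ∑ w, ∑ z, π w * P w z * (γ * h w * (g z - g w) ^ 2) := by
    apply Finset.sum_congr rfl
    intro w _
    rw [Finset.mul_sum, Finset.mul_sum]
    apply Finset.sum_congr rfl
    intro z _
    ring
  have e4 : ∑ w, ∑ z, π w * P w z * (γ * h w * (g z - g w) ^ 2)
      = ∑ w, ∑ z, π w * P w z * (γ * h z * (g w - g z) ^ 2) :=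
    symm_sum hch (fun w z => γ * h w * (g z - g w) ^ 2)
  have e5 : 2 * ∑ w, ∑ z, π w * P w z * (h w * (g z - g w))
      - ∑ w, ∑ z, π w * P w z * (γ * h w * (g z - g w) ^ 2)
      = ∑ w, ∑ z, π w * P w z * ((h w - h z) * (g z - g w)
        - γ / 2 * (h w + h z) * (g z - g w) ^ 2) := by
    have a1 : 2 * ∑ w, ∑ z, π w * P w z * (h w * (g z - g w))
        = ∑ w, ∑ z, π w * P w z * ((h w - h z) * (g z - g w)) := by
      calc 2 * ∑ w, ∑ z, π w * P w z * (h w * (g z - g w))
          = ∑ w, ∑ z, π w * P w z * (h w * (g z - g w))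
            + ∑ w, ∑ z, π w * P w z * (h z * (g w - g z)) := by
              rw [← e2]; ring
        _ = _ := by
            simp only [← Finset.sum_add_distrib]
            apply Finset.sum_congr rfl
            intro w _
            apply Finset.sum_congr rfl
            intro z _
            ring
    have a2 : ∑ w, ∑ z, π w * P w z * (γ * h w * (g z - g w) ^ 2)
        = ∑ w, ∑ z, π w * P w z * (γ / 2 * (h w + h z) * (g z - g w) ^ 2) := by
      have : ∑ w, ∑ z, π w * P w z * (γ * h w * (g z - g w) ^ 2)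
          = 1 / 2 * (∑ w, ∑ z, π w * P w z * (γ * h w * (g z - g w) ^ 2)
            + ∑ w, ∑ z, π w * P w z * (γ * h z * (g w - g z) ^ 2)) := by
        rw [← e4]; ring
      rw [this]
      simp only [← Finset.sum_add_distrib, Finset.mul_sum]
      apply Finset.sum_congr rfl
      intro w _
      apply Finset.sum_congr rfl
      intro z _
      ring
    rw [a1, a2]
    simp only [← Finset.sum_sub_distrib]
    apply Finset.sum_congr rfl
    intro w _
    apply Finset.sum_congr rfl
    intro z _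
    ring
  have hfin : ∑ w, ∑ z, π w * P w z * ((h w - h z) * (g z - g w)
        - γ / 2 * (h w + h z) * (g z - g w) ^ 2) ≤ 1 / (2 * γ) * energy P π h := by
    unfold energy
    simp only [Finset.mul_sum]
    apply Finset.sum_le_sum
    intro w _
    apply Finset.sum_le_sum
    intro z _
    have hp := pointwise_ineq hγ0 (hh w) (hh z) (g z - g w)
    calc π w * P w z * ((h w - h z) * (g z - g w) - γ / 2 * (h w + h z) * (g z - g w) ^ 2)
        ≤ π w * P w z * (1 / (2 * γ) * ((h w - h z) ^ 2 / (h w + h z))) :=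
          mul_le_mul_of_nonneg_left hp (mul_nonneg (hch.pi_nonneg w) (hch.nonneg w z))
      _ = _ := by ring
  calc 2 * ∑ w, π w * h w * (∑ z, P w z * g z - g w)
      - ∑ w, π w * h w * (∑ z, P w z * g z ^ 2 - (∑ z, P w z * g z) ^ 2)
      ≤ 2 * ∑ w, π w * h w * (∑ z, P w z * g z - g w)
        - ∑ w, π w * h w * (γ * ∑ z, P w z * (g z - g w) ^ 2) := by linarith
    _ = 2 * ∑ w, ∑ z, π w * P w z * (h w * (g z - g w))
      - ∑ w, ∑ z, π w * P w z * (γ * h w * (g z - g w) ^ 2) := by rw [e1, e3]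
    _ ≤ _ := by rw [e5]; exact hfin

end Pool.Agent.MP_e25d14_pr
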