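import Pool.Agent.MP_e25d14_pr.Lazy

/-! Time regularity in total variation and the bound for hitting probabilities. -/

namespace Pool.Agent.MP_e25d14_pr

open Finset

variable {S : Type} [Fintype S] [DecidableEq S] {P : Matrix S S ℝ} {π : S → ℝ}

/-- density of the law at time `s` of the chain started at `x` -/
noncomputable def dens (P : Matrix S S ℝ) (π : S → ℝ) (x : S) (s : ℕ) (z : S) : ℝ :=
  (P ^ s) z x / π x

/-- relative entropy at time `s` -/
noncomputable def ent (P : Matrix S S ℝ) (π : S → ℝ) (x : S) (s : ℕ) : ℝ :=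
  ∑ z, π z * phi (dens P π x s z)

theorem dens_nonneg (hch : IsReversibleChain P π) (x : S) (s : ℕ) (z : S) :
    0 ≤ dens P π x s z :=
  div_nonneg (pow_entry_nonneg hch.nonneg s z x) (pi_pos hch x).le

theorem pi_mul_dens (hch : IsReversibleChain P π) (x : S) (s : ℕ) (z : S) :
    π z * dens P π x s z = (P ^ s) x z := by
  unfold dens
  have h := pow_balance hch.balance s z x
  have hx := (pi_pos hch x).ne'
  rw [← mul_div_assoc, h, mul_div_assoc, mul_comm, div_mul_cancel₀ _ hx]

theorem dens_succ (x : S) (s : ℕ) (z : S) :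
    dens P π x (s + 1) z = ∑ w, P z w * dens P π x s w := by
  unfold dens
  rw [pow_succ', Matrix.mul_apply, Finset.sum_div]
  apply Finset.sum_congr rfl
  intro w _
  rw [mul_div_assoc]

theorem pow_succ_entry (x : S) (s : ℕ) (z : S) :
    (P ^ (s + 1)) x z = ∑ w, (P ^ s) x w * P w z := by
  rw [pow_succ, Matrix.mul_apply]

theorem one_step (hch : IsReversibleChain P π) {γ : ℝ} (hγ0 : 0 < γ) (hγ1 : γ ≤ 1 / 2)
    (hlazy : ∀ z, γ ≤ P z z) (x : S) (s : ℕ) (g : S → ℝ) :
    2 * ∑ w, (P ^ s) x w * (∑ z, P w z * g z - g w)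
      - ∑ w, (P ^ s) x w * (∑ z, P w z * g z ^ 2 - (∑ z, P w z * g z) ^ 2)
      ≤ (1 - γ) / γ ^ 2 * (ent P π x s - ent P π x (s + 1)) := by
  have h1 := fisher_step hch hγ0 hlazy (dens_nonneg hch x s) g
  have h2 := entropy_drop hch hγ0 hγ1 hlazy (dens_nonneg hch x s)
  simp only [pi_mul_dens hch] at h1
  refine le_trans h1 ?_
  have h3 : γ / 2 / (1 - γ) * energy P π (dens P π x s) ≤ ent P π x s - ent P π x (s + 1) := by
    unfold ent
    simp only [dens_succ]
    linarith
  have h1γ : 0 < 1 - γ := by linarith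
  have h4 : 1 / (2 * γ) * energy P π (dens P π x s)
      = (1 - γ) / γ ^ 2 * (γ / 2 / (1 - γ) * energy P π (dens P π x s)) := by
    field_simp
  rw [h4]
  exact mul_le_mul_of_nonneg_left h3 (by positivity)

theorem fisher_bound (hch : IsReversibleChain P π) {γ : ℝ} (hγ0 : 0 < γ) (hγ1 : γ ≤ 1 / 2)
    (hlazy : ∀ z, γ ≤ P z z) (x : S) (s : ℕ) (g : S → ℝ) :
    2 * ∑ z, (s : ℝ) * ((P ^ s) x z - (P ^ (s - 1)) x z) * g z - ∑ z, (P ^ s) x z * g z ^ 2
      ≤ (1 - γ) / γ ^ 2 * (ent P π x 0 - ent P π x s) := by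
  induction s generalizing g with
  | zero =>
    simp only [Nat.cast_zero, zero_mul, Finset.sum_const_zero, mul_zero, zero_sub, sub_self]
    have : 0 ≤ ∑ z, (P ^ 0) x z * g z ^ 2 :=
      Finset.sum_nonneg fun z _ => mul_nonneg (pow_entry_nonneg hch.nonneg 0 x z) (sq_nonneg _)
    linarith
  | succ s ih =>
    have hih := ih (fun w => ∑ z, P w z * g z)
    have hone := one_step hch hγ0 hγ1 hlazy x s g
    -- rewrite the left side
    have e0 : ∀ z, ((s + 1 : ℕ) : ℝ) * ((P ^ (s + 1)) x z - (P ^ (s + 1 - 1)) x z)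
        = ∑ w, (s : ℝ) * ((P ^ s) x w - (P ^ (s - 1)) x w) * P w z
          + ((P ^ (s + 1)) x z - (P ^ s) x z) := by
      intro z
      rw [Nat.add_sub_cancel]
      have : ∑ w, (s : ℝ) * ((P ^ s) x w - (P ^ (s - 1)) x w) * P w z
          = (s : ℝ) * ((P ^ (s + 1)) x z - (P ^ s) x z) := by
        rcases Nat.eq_zero_or_pos s with hs | hs
        · subst hs
          simp
        · obtain ⟨r, rfl⟩ : ∃ r, s = r + 1 := ⟨s - 1, by omega⟩
          rw [Nat.add_sub_cancel, pow_succ_entry x (r + 1) z]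
          conv_rhs => rw [pow_succ_entry x r z]
          rw [← Finset.sum_sub_distrib, Finset.mul_sum]
          apply Finset.sum_congr rfl
          intro w _
          ring
      rw [this]
      push_cast
      ring
    have e1 : ∑ z, ((s + 1 : ℕ) : ℝ) * ((P ^ (s + 1)) x z - (P ^ (s + 1 - 1)) x z) * g z
        = ∑ w, (s : ℝ) * ((P ^ s) x w - (P ^ (s - 1)) x w) * (∑ z, P w z * g z)
          + ∑ w, (P ^ s) x w * (∑ z, P w z * g z - g w) := by
      have a1 : ∑ z, (∑ w, (s : ℝ) * ((P ^ s) x w - (P ^ (s - 1)) x w) * P w z) * g z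
          = ∑ w, (s : ℝ) * ((P ^ s) x w - (P ^ (s - 1)) x w) * (∑ z, P w z * g z) := by
        simp only [Finset.sum_mul, Finset.mul_sum]
        rw [Finset.sum_comm]
        apply Finset.sum_congr rfl
        intro w _
        apply Finset.sum_congr rfl
        intro z _
        ring
      have a2 : ∑ z, (P ^ (s + 1)) x z * g z = ∑ w, (P ^ s) x w * (∑ z, P w z * g z) := by
        simp only [pow_succ_entry, Finset.sum_mul, Finset.mul_sum]
        rw [Finset.sum_comm]
        apply Finset.sum_congr rfl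
        intro w _
        apply Finset.sum_congr rfl
        intro z _
        ring
      calc ∑ z, ((s + 1 : ℕ) : ℝ) * ((P ^ (s + 1)) x z - (P ^ (s + 1 - 1)) x z) * g z
          = ∑ z, ((∑ w, (s : ℝ) * ((P ^ s) x w - (P ^ (s - 1)) x w) * P w z) * g z
              + ((P ^ (s + 1)) x z * g z - (P ^ s) x z * g z)) := by
            apply Finset.sum_congr rfl
            intro z _
            rw [e0 z]
            ring
        _ = _ := by
            rw [Finset.sum_add_distrib, Finset.sum_sub_distrib, a1, a2]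
            simp only [mul_sub, Finset.sum_sub_distrib]
    have e2 : ∑ z, (P ^ (s + 1)) x z * g z ^ 2
        = ∑ w, (P ^ s) x w * (∑ z, P w z * g z) ^ 2
          + ∑ w, (P ^ s) x w * (∑ z, P w z * g z ^ 2 - (∑ z, P w z * g z) ^ 2) := by
      have a2 : ∑ z, (P ^ (s + 1)) x z * g z ^ 2
          = ∑ w, (P ^ s) x w * (∑ z, P w z * g z ^ 2) := by
        simp only [pow_succ_entry, Finset.sum_mul, Finset.mul_sum]
        rw [Finset.sum_comm]
        apply Finset.sum_congr rfl
        intro w _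
        apply Finset.sum_congr rfl
        intro z _
        ring
      rw [a2, ← Finset.sum_add_distrib]
      apply Finset.sum_congr rfl
      intro w _
      ring
    rw [e1, e2]
    have hK : (1 - γ) / γ ^ 2 * (ent P π x 0 - ent P π x (s + 1))
        = (1 - γ) / γ ^ 2 * (ent P π x 0 - ent P π x s)
          + (1 - γ) / γ ^ 2 * (ent P π x s - ent P π x (s + 1)) := by ring
    rw [hK]
    linarith

theorem ent_zero (hch : IsReversibleChain P π) (x : S) :
    ent P π x 0 = Real.log (1 / π x) := by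
  unfold ent dens
  rw [Finset.sum_eq_single x]
  · have := (pi_pos hch x).ne'
    simp only [pow_zero, Matrix.one_apply_eq, phi]
    field_simp
  · intro z _ hz
    simp [hz, phi]
  · intro h
    exact absurd (Finset.mem_univ _) h

theorem ent_nonneg (hch : IsReversibleChain P π) (x : S) (s : ℕ) : 0 ≤ ent P π x s := by
  have h1 : ∀ u : ℝ, 0 ≤ u → u - 1 ≤ phi u := by
    intro u hu
    unfold phi
    rcases hu.eq_or_lt with h | h
    · rw [← h]; simp
    · have := Real.one_sub_inv_le_log_of_pos h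
      have h2 : u * (1 - u⁻¹) ≤ u * Real.log u := mul_le_mul_of_nonneg_left this h.le
      have h3 : u * (1 - u⁻¹) = u - 1 := by field_simp
      linarith
  have h2 : ∑ z, π z * (dens P π x s z - 1) ≤ ent P π x s := by
    unfold ent
    exact Finset.sum_le_sum fun z _ =>
      mul_le_mul_of_nonneg_left (h1 _ (dens_nonneg hch x s z)) (hch.pi_nonneg z)
  have h3 : ∑ z, π z * (dens P π x s z - 1) = 0 := by
    simp only [mul_sub, pi_mul_dens hch, mul_one, Finset.sum_sub_distrib,
      pow_row_sum hch.row_sum, hch.pi_sum, sub_self]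
  linarith

/-- Time regularity of the law of the chain in total variation. -/
theorem tv_bound (hch : IsReversibleChain P π) {γ : ℝ} (hγ0 : 0 < γ) (hγ1 : γ ≤ 1 / 2)
    (hlazy : ∀ z, γ ≤ P z z) (x : S) (s : ℕ) :
    ∑ z, |((s + 1 : ℕ) : ℝ) * ((P ^ (s + 1)) x z - (P ^ s) x z)|
      ≤ √((1 - γ) / γ ^ 2 * max 1 (Real.log (1 / π x))) := by
  set M : ℝ := max 1 (Real.log (1 / π x)) with hM
  have hM1 : 1 ≤ M := le_max_left _ _
  have hML : Real.log (1 / π x) ≤ M := le_max_right _ _
  have h1γ : 0 < 1 - γ := by linarith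
  set K : ℝ := (1 - γ) / γ ^ 2 with hK
  have hK0 : 0 < K := by positivity
  set Λ : ℝ := √(K * M) with hΛ
  have hΛ0 : 0 < Λ := Real.sqrt_pos.mpr (by positivity)
  have hΛ2 : Λ ^ 2 = K * M := Real.sq_sqrt (by positivity)
  set q : S → ℝ := fun z => ((s + 1 : ℕ) : ℝ) * ((P ^ (s + 1)) x z - (P ^ s) x z) with hq
  have hf := fisher_bound hch hγ0 hγ1 hlazy x (s + 1) (fun z => Λ * SignType.sign (q z))
  rw [Nat.add_sub_cancel] at hf
  have e1 : ∑ z, q z * (Λ * SignType.sign (q z)) = Λ * ∑ z, |q z| := by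
    rw [Finset.mul_sum]
    apply Finset.sum_congr rfl
    intro z _
    have : q z * SignType.sign (q z) = |q z| := self_mul_sign (q z)
    rw [← this]
    ring
  have e2 : ∑ z, (P ^ (s + 1)) x z * (Λ * SignType.sign (q z)) ^ 2 ≤ Λ ^ 2 := by
    calc ∑ z, (P ^ (s + 1)) x z * (Λ * SignType.sign (q z)) ^ 2
        ≤ ∑ z, (P ^ (s + 1)) x z * Λ ^ 2 := by
          apply Finset.sum_le_sum
          intro z _
          apply mul_le_mul_of_nonneg_left _ (pow_entry_nonneg hch.nonneg _ x z)
          rw [mul_pow]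
          have : ((SignType.sign (q z) : SignType) : ℝ) ^ 2 ≤ 1 := by
            rcases lt_trichotomy (q z) 0 with h | h | h
            · rw [sign_neg h]; norm_num
            · rw [h]; norm_num
            · rw [sign_pos h]; norm_num
          nlinarith [sq_nonneg Λ]
      _ = Λ ^ 2 := by rw [← Finset.sum_mul, pow_row_sum hch.row_sum, one_mul]
  have e3 : ∑ z, ((s + 1 : ℕ) : ℝ) * ((P ^ (s + 1)) x z - (P ^ s) x z) *
      (Λ * SignType.sign (q z)) = Λ * ∑ z, |q z| := e1
  rw [e3] at hf
  have h5 : K * (ent P π x 0 - ent P π x (s + 1)) ≤ Λ ^ 2 := by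
    rw [hΛ2]
    apply mul_le_mul_of_nonneg_left _ hK0.le
    have := ent_nonneg hch x (s + 1)
    rw [ent_zero hch]
    linarith
  have h6 : 2 * (Λ * ∑ z, |q z|) ≤ 2 * (Λ * Λ) := by nlinarith
  have h7 : Λ * ∑ z, |q z| ≤ Λ * Λ := by linarith
  exact le_of_mul_le_mul_left h7 hΛ0

theorem hitProb_le_sum (hch : IsReversibleChain P π) (x y : S) (s k : ℕ) :
    hitProb P x y (s + k) ≤ ∑ z, (P ^ s) x z * hitProb P z y k := by
  induction s generalizing x with
  | zero =>
    rw [zero_add, pow_zero]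
    simp [Matrix.one_apply]
  | succ s ih =>
    have e : s + 1 + k = (s + k) + 1 := by omega
    rw [e, hitProb_succ]
    have h1 : ∑ z, P x z * hitProb P z y (s + k) ≤ ∑ z, (P ^ (s + 1)) x z * hitProb P z y k := by
      calc ∑ z, P x z * hitProb P z y (s + k)
          ≤ ∑ z, P x z * ∑ w, (P ^ s) z w * hitProb P w y k :=
            Finset.sum_le_sum fun z _ => mul_le_mul_of_nonneg_left (ih z) (hch.nonneg x z)
        _ = ∑ z, (P ^ (s + 1)) x z * hitProb P z y k := by
            simp only [pow_succ', Matrix.mul_apply, Finset.sum_mul, Finset.mul_sum]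
            rw [Finset.sum_comm]
            apply Finset.sum_congr rfl
            intro w _
            apply Finset.sum_congr rfl
            intro z _
            ring
    split_ifs
    · exact Finset.sum_nonneg fun z _ => mul_nonneg (pow_entry_nonneg hch.nonneg _ x z)
        (hitProb_nonneg hch.nonneg _ _ _)
    · exact h1

theorem sum_hit_shift (hch : IsReversibleChain P π) (z y : S) (a t : ℕ) :
    ∑ s ∈ Finset.Ico a t, hitProb P z y (t - s) ≤ 1 := by
  have h1 : ∑ s ∈ Finset.Ico a t, hitProb P z y (t - s) ≤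
      ∑ s ∈ Finset.range t, hitProb P z y (t - s) := by
    apply Finset.sum_le_sum_of_subset_of_nonneg
    · intro s hs
      rw [Finset.mem_Ico] at hs
      exact Finset.mem_range.mpr hs.2
    · intro s _ _
      exact hitProb_nonneg hch.nonneg _ _ _
  have h2 : ∑ s ∈ Finset.range t, hitProb P z y (t - s)
      = ∑ s ∈ Finset.range t, hitProb P z y (s + 1) := by
    rw [← Finset.sum_range_reflect (fun s => hitProb P z y (s + 1)) t]
    apply Finset.sum_congr rfl
    intro s hs
    rw [Finset.mem_range] at hs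
    congr 1
    omega
  have h3 := sum_hitProb_le_one hch.nonneg hch.row_sum z y (t + 1)
  rw [Finset.sum_range_succ'] at h3
  have h4 := hitProb_nonneg (P := P) hch.nonneg z y 0
  linarith

theorem hit_window (hch : IsReversibleChain P π) (x y : S) (a t : ℕ) :
    ((t - a : ℕ) : ℝ) * hitProb P x y t ≤
      1 + ∑ r ∈ Finset.Ico a (t - 1), ∑ z, |(P ^ (r + 1)) x z - (P ^ r) x z| := by
  set M : S → ℝ := fun z => (P ^ a) x z +
    ∑ r ∈ Finset.Ico a (t - 1), |(P ^ (r + 1)) x z - (P ^ r) x z| with hM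
  have hp : ∀ z, ∀ s ∈ Finset.Ico a t, (P ^ s) x z ≤ M z := by
    intro z s hs
    rw [Finset.mem_Ico] at hs
    have h1 : (P ^ s) x z ≤ (P ^ a) x z +
        ∑ r ∈ Finset.Ico a s, |(P ^ (r + 1)) x z - (P ^ r) x z| := by
      obtain ⟨has, _⟩ := hs
      induction s, has using Nat.le_induction with
      | base => simp
      | succ s hs' ih =>
        rw [Finset.sum_Ico_succ_top hs']
        have := ih (by omega)
        have h2 := le_abs_self ((P ^ (s + 1)) x z - (P ^ s) x z)
        linarith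
    refine le_trans h1 ?_
    rw [hM]
    apply add_le_add_right
    apply Finset.sum_le_sum_of_subset_of_nonneg
    · apply Finset.Ico_subset_Ico_right
      omega
    · intro r _ _
      exact abs_nonneg _
  calc ((t - a : ℕ) : ℝ) * hitProb P x y t
      = ∑ s ∈ Finset.Ico a t, hitProb P x y t := by simp
    _ ≤ ∑ s ∈ Finset.Ico a t, ∑ z, (P ^ s) x z * hitProb P z y (t - s) := by
        apply Finset.sum_le_sum
        intro s hs
        rw [Finset.mem_Ico] at hs
        have := hitProb_le_sum hch x y s (t - s)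
        rwa [Nat.add_sub_cancel' hs.2.le] at this
    _ ≤ ∑ s ∈ Finset.Ico a t, ∑ z, M z * hitProb P z y (t - s) := by
        apply Finset.sum_le_sum
        intro s hs
        apply Finset.sum_le_sum
        intro z _
        exact mul_le_mul_of_nonneg_right (hp z s hs) (hitProb_nonneg hch.nonneg _ _ _)
    _ = ∑ z, M z * ∑ s ∈ Finset.Ico a t, hitProb P z y (t - s) := by
        rw [Finset.sum_comm]
        simp only [Finset.mul_sum]
    _ ≤ ∑ z, M z * 1 := by
        apply Finset.sum_le_sum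
        intro z _
        apply mul_le_mul_of_nonneg_left (sum_hit_shift hch z y a t)
        exact add_nonneg (pow_entry_nonneg hch.nonneg _ _ _)
          (Finset.sum_nonneg fun r _ => abs_nonneg _)
    _ = 1 + ∑ r ∈ Finset.Ico a (t - 1), ∑ z, |(P ^ (r + 1)) x z - (P ^ r) x z| := by
        simp only [mul_one, hM]
        rw [Finset.sum_add_distrib, pow_row_sum hch.row_sum, Finset.sum_comm]

theorem harmonic_window (t : ℕ) :
    ∑ r ∈ Finset.Ico (t / 2) (t - 1), 1 / ((r + 1 : ℕ) : ℝ) ≤ Real.log 2 := by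
  have hlog2 : 0 ≤ Real.log 2 := Real.log_nonneg (by norm_num)
  rcases Nat.lt_or_ge t 2 with ht | ht
  · have : Finset.Ico (t / 2) (t - 1) = ∅ := by
      apply Finset.Ico_eq_empty
      omega
    rw [this, Finset.sum_empty]
    exact hlog2
  · have ha : 1 ≤ t / 2 := by omega
    have key : ∀ b, t / 2 ≤ b → ∑ r ∈ Finset.Ico (t / 2) b, 1 / ((r + 1 : ℕ) : ℝ) ≤
        Real.log b - Real.log (t / 2 : ℕ) := by
      intro b hb
      induction b, hb using Nat.le_induction with
      | base => simp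
      | succ b hb ih =>
        rw [Finset.sum_Ico_succ_top hb]
        have hb0 : (0 : ℝ) < b := by
          have : 0 < b := by omega
          exact_mod_cast this
        have h1 : 1 / ((b + 1 : ℕ) : ℝ) ≤ Real.log ((b + 1 : ℕ) : ℝ) - Real.log b := by
          rw [← Real.log_div (by positivity) hb0.ne']
          have h2 := Real.one_sub_inv_le_log_of_pos (x := ((b + 1 : ℕ) : ℝ) / b) (by positivity)
          refine le_trans (le_of_eq ?_) h2
          rw [inv_div]
          push_cast
          field_simp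
          ring
        linarith
    refine le_trans (key (t - 1) (by omega)) ?_
    have h3 : (0 : ℝ) < (t / 2 : ℕ) := by exact_mod_cast ha
    have h4 : (0 : ℝ) < (t - 1 : ℕ) := by
      have : 0 < t - 1 := by omega
      exact_mod_cast this
    rw [← Real.log_div h4.ne' h3.ne']
    apply Real.log_le_log (by positivity)
    rw [div_le_iff₀ h3]
    have : t - 1 ≤ 2 * (t / 2) := by omega
    exact_mod_cast this

theorem hit_bound (hch : IsReversibleChain P π) {γ : ℝ} (hγ0 : 0 < γ) (hγ1 : γ ≤ 1 / 2)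
    (hlazy : ∀ z, γ ≤ P z z) (x y : S) (t : ℕ) (ht : 1 ≤ t) :
    hitProb P x y t ≤ 2 / (γ * t) * √(max 1 (Real.log (1 / π x))) := by
  set M : ℝ := max 1 (Real.log (1 / π x)) with hM
  have hM1 : 1 ≤ M := le_max_left _ _
  have h1γ : 0 < 1 - γ := by linarith
  set Λ : ℝ := √((1 - γ) / γ ^ 2 * M) with hΛ
  have hΛ' : Λ = √(1 - γ) / γ * √M := by
    rw [hΛ, Real.sqrt_mul (by positivity), Real.sqrt_div h1γ.le, Real.sqrt_sq hγ0.le]
  have hw := hit_window hch x y (t / 2) t
  have htv : ∀ r, ∑ z, |(P ^ (r + 1)) x z - (P ^ r) x z| ≤ Λ * (1 / ((r + 1 : ℕ) : ℝ)) := by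
    intro r
    have h1 := tv_bound hch hγ0 hγ1 hlazy x r
    have hr : (0 : ℝ) < ((r + 1 : ℕ) : ℝ) := by positivity
    have h2 : ∑ z, |((r + 1 : ℕ) : ℝ) * ((P ^ (r + 1)) x z - (P ^ r) x z)|
        = ((r + 1 : ℕ) : ℝ) * ∑ z, |(P ^ (r + 1)) x z - (P ^ r) x z| := by
      rw [Finset.mul_sum]
      apply Finset.sum_congr rfl
      intro z _
      rw [abs_mul, abs_of_pos hr]
    rw [h2] at h1
    rw [mul_one_div, le_div_iff₀ hr, mul_comm]
    exact h1
  have hsum : ∑ r ∈ Finset.Ico (t / 2) (t - 1), ∑ z, |(P ^ (r + 1)) x z - (P ^ r) x z| ≤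
      Λ * Real.log 2 := by
    calc ∑ r ∈ Finset.Ico (t / 2) (t - 1), ∑ z, |(P ^ (r + 1)) x z - (P ^ r) x z|
        ≤ ∑ r ∈ Finset.Ico (t / 2) (t - 1), Λ * (1 / ((r + 1 : ℕ) : ℝ)) :=
          Finset.sum_le_sum fun r _ => htv r
      _ = Λ * ∑ r ∈ Finset.Ico (t / 2) (t - 1), 1 / ((r + 1 : ℕ) : ℝ) := by
          rw [Finset.mul_sum]
      _ ≤ Λ * Real.log 2 :=
          mul_le_mul_of_nonneg_left (harmonic_window t) (Real.sqrt_nonneg _)
  have ht0 : (0 : ℝ) < t := by exact_mod_cast ht
  have hf0 : 0 ≤ hitProb P x y t := hitProb_nonneg hch.nonneg _ _ _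
  have hhalf : (t : ℝ) / 2 ≤ ((t - t / 2 : ℕ) : ℝ) := by
    have : t ≤ 2 * (t - t / 2) := by omega
    have h2 : (t : ℝ) ≤ 2 * ((t - t / 2 : ℕ) : ℝ) := by exact_mod_cast this
    linarith
  have h3 : (t : ℝ) / 2 * hitProb P x y t ≤ 1 + Λ * Real.log 2 := by
    have := mul_le_mul_of_nonneg_right hhalf hf0
    linarith
  have hsM : 1 ≤ √M := by
    rw [Real.one_le_sqrt]
    exact hM1
  have hs1 : √(1 - γ) * Real.log 2 ≤ 1 - γ := by
    have h4 : Real.log 2 ≤ √(1 - γ) := by
      apply Real.le_sqrt_of_sq_le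
      have := Real.log_two_lt_d9
      have h5 := Real.log_two_gt_d9
      nlinarith
    calc √(1 - γ) * Real.log 2 ≤ √(1 - γ) * √(1 - γ) :=
          mul_le_mul_of_nonneg_left h4 (Real.sqrt_nonneg _)
      _ = 1 - γ := Real.mul_self_sqrt h1γ.le
  have h6 : 1 + Λ * Real.log 2 ≤ √M / γ := by
    rw [hΛ']
    have h7 : √(1 - γ) / γ * √M * Real.log 2 = (√(1 - γ) * Real.log 2) * (√M / γ) := by ring
    have h8 : (√(1 - γ) * Real.log 2) * (√M / γ) ≤ (1 - γ) * (√M / γ) :=
      mul_le_mul_of_nonneg_right hs1 (by positivity)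
    have h9 : 1 ≤ γ * (√M / γ) := by
      rw [mul_div_cancel₀ _ hγ0.ne']
      exact hsM
    rw [h7]
    linarith
  have h10 : (t : ℝ) / 2 * hitProb P x y t ≤ √M / γ := le_trans h3 h6
  have h11 : 2 / (γ * t) * √M = (√M / γ) / ((t : ℝ) / 2) := by
    field_simp
  rw [h11, le_div_iff₀ (by positivity), mul_comm]
  exact h10

end Pool.Agent.MP_e25d14_pr
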