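import Pool.Agent.MP_e25d14_pr.Basic

/-! A nearly deterministic birth-death chain. -/

namespace Pool.Agent.MP_e25d14_pr

open Finset

/-- one step up, staying at the top -/
def up (n : ℕ) (i : Fin (n + 1)) : Fin (n + 1) :=
  ⟨min (i.val + 1) n, by omega⟩

/-- one step down, staying at the bottom -/
def down (n : ℕ) (i : Fin (n + 1)) : Fin (n + 1) :=
  ⟨i.val - 1, by omega⟩

/-- the walk that goes up with probability `1 - δ` and down with probability `δ` -/
def walk (n : ℕ) (δ : ℝ) : Matrix (Fin (n + 1)) (Fin (n + 1)) ℝ :=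
  fun i j => (if j = up n i then 1 - δ else 0) + (if j = down n i then δ else 0)

/-- its stationary law -/
noncomputable def statLaw (n : ℕ) (δ : ℝ) : Fin (n + 1) → ℝ :=
  fun i => ((1 - δ) / δ) ^ i.val / ∑ j : Fin (n + 1), ((1 - δ) / δ) ^ j.val

theorem walk_nonneg (n : ℕ) {δ : ℝ} (h0 : 0 < δ) (h1 : δ < 1) (i j : Fin (n + 1)) :
    0 ≤ walk n δ i j := by
  unfold walk
  have : 0 ≤ 1 - δ := by linarith
  split_ifs <;> linarith

theorem walk_row (n : ℕ) (δ : ℝ) (i : Fin (n + 1)) : ∑ j, walk n δ i j = 1 := by
  unfold walk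
  rw [Finset.sum_add_distrib, Finset.sum_ite_eq', Finset.sum_ite_eq']
  simp

theorem walk_up (n : ℕ) {δ : ℝ} (h0 : 0 < δ) (h1 : δ < 1) (i : Fin (n + 1)) :
    1 - δ ≤ walk n δ i (up n i) := by
  unfold walk
  rw [if_pos rfl]
  split_ifs <;> linarith

theorem walk_down (n : ℕ) {δ : ℝ} (h0 : 0 < δ) (h1 : δ < 1) (i : Fin (n + 1)) :
    δ ≤ walk n δ i (down n i) := by
  unfold walk
  rw [if_pos (rfl : down n i = down n i)]
  split_ifs <;> linarith

theorem pow_nonneg_entries (n : ℕ) {δ : ℝ} (h0 : 0 < δ) (h1 : δ < 1) (k : ℕ)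
    (i j : Fin (n + 1)) : 0 ≤ (walk n δ ^ k) i j := by
  induction k generalizing i j with
  | zero =>
    rw [pow_zero, Matrix.one_apply]
    split_ifs <;> norm_num
  | succ k ih =>
    rw [pow_succ, Matrix.mul_apply]
    exact Finset.sum_nonneg fun l _ => mul_nonneg (ih i l) (walk_nonneg n h0 h1 l j)

theorem reach_step (n : ℕ) {δ : ℝ} (h0 : 0 < δ) (h1 : δ < 1) {i j l : Fin (n + 1)}
    (h : ∃ k, 0 < (walk n δ ^ k) i j) (hs : 0 < walk n δ j l) :
    ∃ k, 0 < (walk n δ ^ k) i l := by
  obtain ⟨k, hk⟩ := h
  refine ⟨k + 1, ?_⟩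
  rw [pow_succ, Matrix.mul_apply]
  exact Finset.sum_pos' (fun m _ => mul_nonneg (pow_nonneg_entries n h0 h1 k i m)
    (walk_nonneg n h0 h1 m l)) ⟨j, Finset.mem_univ _, mul_pos hk hs⟩

theorem reach_up (n : ℕ) {δ : ℝ} (h0 : 0 < δ) (h1 : δ < 1) (i : Fin (n + 1)) (m : ℕ)
    (hm : i.val + m < n + 1) :
    ∃ k, 0 < (walk n δ ^ k) i ⟨i.val + m, hm⟩ := by
  induction m with
  | zero => exact ⟨0, by simp⟩
  | succ m ih =>
    have hm' : i.val + m < n + 1 := by omega
    refine reach_step n h0 h1 (ih hm') ?_
    have e : (⟨i.val + (m + 1), hm⟩ : Fin (n + 1)) = up n ⟨i.val + m, hm'⟩ := by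
      apply Fin.ext
      simp only [up]
      omega
    rw [e]
    have := walk_up n h0 h1 (⟨i.val + m, hm'⟩ : Fin (n + 1))
    linarith

theorem reach_down (n : ℕ) {δ : ℝ} (h0 : 0 < δ) (h1 : δ < 1) (i : Fin (n + 1)) (m : ℕ) :
    ∃ k, 0 < (walk n δ ^ k) i ⟨i.val - m, by omega⟩ := by
  induction m with
  | zero => exact ⟨0, by simp⟩
  | succ m ih =>
    refine reach_step n h0 h1 ih ?_
    have e : (⟨i.val - (m + 1), by omega⟩ : Fin (n + 1)) = down n ⟨i.val - m, by omega⟩ := by
      apply Fin.ext
      simp only [down]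
      omega
    rw [e]
    have := walk_down n h0 h1 (⟨i.val - m, by omega⟩ : Fin (n + 1))
    linarith

theorem walk_irred (n : ℕ) {δ : ℝ} (h0 : 0 < δ) (h1 : δ < 1) (i j : Fin (n + 1)) :
    ∃ k, 0 < (walk n δ ^ k) i j := by
  rcases le_total i.val j.val with h | h
  · have := reach_up n h0 h1 i (j.val - i.val) (by omega)
    have e : (⟨i.val + (j.val - i.val), by omega⟩ : Fin (n + 1)) = j := by
      apply Fin.ext
      simp only
      omega
    rwa [e] at this
  · have := reach_down n h0 h1 i (i.val - j.val)
    have e : (⟨i.val - (i.val - j.val), by omega⟩ : Fin (n + 1)) = j := by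
      apply Fin.ext
      simp only
      omega
    rwa [e] at this

theorem walk_balance (n : ℕ) {δ : ℝ} (h0 : 0 < δ) (h1 : δ < 1) (i j : Fin (n + 1)) :
    ((1 - δ) / δ) ^ i.val * walk n δ i j = ((1 - δ) / δ) ^ j.val * walk n δ j i := by
  have hδ : δ ≠ 0 := ne_of_gt h0
  have key : ((1 - δ) / δ) * δ = 1 - δ := by field_simp
  rcases lt_trichotomy i j with h | h | h
  · by_cases hij : j.val = i.val + 1
    · have e1 : walk n δ i j = 1 - δ := by
        unfold walk
        rw [if_pos, if_neg, add_zero]
        · intro e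
          have := congrArg Fin.val e
          simp only [down] at this
          omega
        · apply Fin.ext
          simp only [up]
          omega
      have e2 : walk n δ j i = δ := by
        unfold walk
        rw [if_neg, if_pos, zero_add]
        · apply Fin.ext
          simp only [down]
          omega
        · intro e
          have := congrArg Fin.val e
          simp only [up] at this
          omega
      rw [e1, e2, hij, pow_succ, mul_assoc, key]
    · have hlt : i.val < j.val := h
      have e1 : walk n δ i j = 0 := by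
        unfold walk
        rw [if_neg, if_neg, add_zero]
        · intro e
          have := congrArg Fin.val e
          simp only [down] at this
          omega
        · intro e
          have := congrArg Fin.val e
          simp only [up] at this
          omega
      have e2 : walk n δ j i = 0 := by
        unfold walk
        rw [if_neg, if_neg, add_zero]
        · intro e
          have := congrArg Fin.val e
          simp only [down] at this
          omega
        · intro e
          have := congrArg Fin.val e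
          simp only [up] at this
          omega
      rw [e1, e2, mul_zero, mul_zero]
  · rw [h]
  · by_cases hij : i.val = j.val + 1
    · have e1 : walk n δ j i = 1 - δ := by
        unfold walk
        rw [if_pos, if_neg, add_zero]
        · intro e
          have := congrArg Fin.val e
          simp only [down] at this
          omega
        · apply Fin.ext
          simp only [up]
          omega
      have e2 : walk n δ i j = δ := by
        unfold walk
        rw [if_neg, if_pos, zero_add]
        · apply Fin.ext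
          simp only [down]
          omega
        · intro e
          have := congrArg Fin.val e
          simp only [up] at this
          omega
      rw [e1, e2, hij, pow_succ, mul_assoc, key]
    · have hlt : j.val < i.val := h
      have e1 : walk n δ j i = 0 := by
        unfold walk
        rw [if_neg, if_neg, add_zero]
        · intro e
          have := congrArg Fin.val e
          simp only [down] at this
          omega
        · intro e
          have := congrArg Fin.val e
          simp only [up] at this
          omega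
      have e2 : walk n δ i j = 0 := by
        unfold walk
        rw [if_neg, if_neg, add_zero]
        · intro e
          have := congrArg Fin.val e
          simp only [down] at this
          omega
        · intro e
          have := congrArg Fin.val e
          simp only [up] at this
          omega
      rw [e1, e2, mul_zero, mul_zero]

theorem ratio_pos {δ : ℝ} (h0 : 0 < δ) (h1 : δ < 1) : 0 < (1 - δ) / δ :=
  div_pos (by linarith) h0

theorem norm_pos (n : ℕ) {δ : ℝ} (h0 : 0 < δ) (h1 : δ < 1) :
    0 < ∑ j : Fin (n + 1), ((1 - δ) / δ) ^ j.val :=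
  Finset.sum_pos (fun j _ => pow_pos (ratio_pos h0 h1) _) Finset.univ_nonempty

theorem walk_rev (n : ℕ) {δ : ℝ} (h0 : 0 < δ) (h1 : δ < 1) :
    IsReversibleChain (walk n δ) (statLaw n δ) where
  nonneg := walk_nonneg n h0 h1
  row_sum := walk_row n δ
  irred := walk_irred n h0 h1
  pi_nonneg := fun u => div_nonneg (pow_nonneg (ratio_pos h0 h1).le _) (norm_pos n h0 h1).le
  pi_sum := by
    unfold statLaw
    rw [← Finset.sum_div]
    exact div_self (norm_pos n h0 h1).ne'
  balance := by
    intro u v
    unfold statLaw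
    rw [div_mul_eq_mul_div, div_mul_eq_mul_div, walk_balance n h0 h1]

theorem hit_lower (n : ℕ) {δ : ℝ} (h0 : 0 < δ) (h1 : δ < 1) (k : ℕ) (hk : k ≤ n) :
    (1 - δ) ^ k ≤ hitProb (walk n δ) ⟨n - k, by omega⟩ (Fin.last n) k := by
  induction k with
  | zero =>
    rw [hitProb_zero, if_pos]
    · simp
    · apply Fin.ext
      simp
  | succ k ih =>
    rw [hitProb_succ, if_neg]
    · have hk' : k ≤ n := by omega
      have h2 := ih hk'
      have e : up n ⟨n - (k + 1), by omega⟩ = (⟨n - k, by omega⟩ : Fin (n + 1)) := by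
        apply Fin.ext
        simp only [up]
        omega
      have h3 := walk_up n h0 h1 (⟨n - (k + 1), by omega⟩ : Fin (n + 1))
      rw [e] at h3
      calc (1 - δ) ^ (k + 1) = (1 - δ) * (1 - δ) ^ k := by ring
        _ ≤ walk n δ ⟨n - (k + 1), by omega⟩ ⟨n - k, by omega⟩ *
              hitProb (walk n δ) ⟨n - k, by omega⟩ (Fin.last n) k := by
            apply mul_le_mul h3 h2 (pow_nonneg (by linarith) _)
            exact walk_nonneg n h0 h1 _ _
        _ ≤ _ := by
            refine Finset.single_le_sum (f := fun z => walk n δ ⟨n - (k + 1), by omega⟩ z *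
              hitProb (walk n δ) z (Fin.last n) k) ?_ (Finset.mem_univ _)
            intro z _
            exact mul_nonneg (walk_nonneg n h0 h1 _ _)
              (hitProb_nonneg (walk_nonneg n h0 h1) _ _ _)
    · intro e
      have := congrArg Fin.val e
      simp at this
      omega

theorem log_bound (n : ℕ) (hn : 1 ≤ n) :
    max 1 (Real.log (1 / statLaw n (1 / (2 * n)) ⟨0, by omega⟩)) ≤ 2 * n * Real.log (2 * n) := by
  have hn' : (1 : ℝ) ≤ n := by exact_mod_cast hn
  have hr : (1 - 1 / (2 * (n : ℝ))) / (1 / (2 * n)) = 2 * n - 1 := by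
    have : (n : ℝ) ≠ 0 := by positivity
    field_simp
  have hstat : 1 / statLaw n (1 / (2 * n)) ⟨0, by omega⟩
      = ∑ j : Fin (n + 1), (2 * (n : ℝ) - 1) ^ j.val := by
    unfold statLaw
    rw [hr, pow_zero, one_div_one_div]
  rw [hstat]
  have hsum : ∑ j : Fin (n + 1), (2 * (n : ℝ) - 1) ^ j.val ≤ (2 * n) ^ (n + 1) := by
    calc ∑ j : Fin (n + 1), (2 * (n : ℝ) - 1) ^ j.val
        ≤ ∑ _j : Fin (n + 1), (2 * (n : ℝ)) ^ n := by
          apply Finset.sum_le_sum
          intro j _
          calc (2 * (n : ℝ) - 1) ^ j.val ≤ (2 * (n : ℝ)) ^ j.val := by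
                apply pow_le_pow_left₀ <;> linarith
            _ ≤ (2 * (n : ℝ)) ^ n := by
                apply pow_le_pow_right₀
                · linarith
                · omega
      _ = (n + 1) * (2 * (n : ℝ)) ^ n := by simp
      _ ≤ (2 * n) * (2 * (n : ℝ)) ^ n := by
          apply mul_le_mul_of_nonneg_right
          · linarith
          · positivity
      _ = (2 * n) ^ (n + 1) := by ring
  have hpos : 0 < ∑ j : Fin (n + 1), (2 * (n : ℝ) - 1) ^ j.val := by
    apply Finset.sum_pos
    · intro j _
      apply pow_pos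
      linarith
    · exact Finset.univ_nonempty
  have hlogn : 0 ≤ Real.log (2 * n) := Real.log_nonneg (by linarith)
  have hlog : Real.log (∑ j : Fin (n + 1), (2 * (n : ℝ) - 1) ^ j.val)
      ≤ (n + 1) * Real.log (2 * n) := by
    calc Real.log (∑ j : Fin (n + 1), (2 * (n : ℝ) - 1) ^ j.val)
        ≤ Real.log ((2 * n) ^ (n + 1)) := Real.log_le_log hpos hsum
      _ = (n + 1) * Real.log (2 * n) := by
          rw [Real.log_pow]
          push_cast
          ring
  apply max_le
  · have h2 : Real.log 2 ≤ Real.log (2 * n) := Real.log_le_log (by norm_num) (by linarith)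
    have h3 := Real.log_two_gt_d9
    nlinarith
  · have : (n + 1) * Real.log (2 * n) ≤ (2 * n) * Real.log (2 * n) := by
      apply mul_le_mul_of_nonneg_right _ hlogn
      linarith
    linarith

theorem hit_half (n : ℕ) (hn : 1 ≤ n) :
    (1 : ℝ) / 2 ≤ hitProb (walk n (1 / (2 * n))) ⟨0, by omega⟩ (Fin.last n) n := by
  have hn' : (1 : ℝ) ≤ n := by exact_mod_cast hn
  have hδ0 : (0 : ℝ) < 1 / (2 * n) := by positivity
  have hδ1 : (1 : ℝ) / (2 * n) < 1 := by
    rw [div_lt_one (by positivity)]
    linarith
  have h1 := hit_lower n hδ0 hδ1 n le_rfl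
  have e : (⟨n - n, by omega⟩ : Fin (n + 1)) = ⟨0, by omega⟩ := by
    apply Fin.ext
    simp
  rw [e] at h1
  refine le_trans ?_ h1
  have h2 : 1 + (n : ℝ) * (-(1 / (2 * n))) ≤ (1 + -(1 / (2 * (n : ℝ)))) ^ n := by
    apply one_add_mul_le_pow
    linarith
  have h3 : 1 + (n : ℝ) * (-(1 / (2 * n))) = 1 / 2 := by
    field_simp
    ring
  rw [h3] at h2
  exact h2

theorem log_lower (n : ℕ) (hn : 1 ≤ n) :
    n * Real.log (2 * n - 1) ≤ Real.log (1 / statLaw n (1 / (2 * n)) ⟨0, by omega⟩) := by
  have hn' : (1 : ℝ) ≤ n := by exact_mod_cast hn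
  have hr : (1 - 1 / (2 * (n : ℝ))) / (1 / (2 * n)) = 2 * n - 1 := by
    have : (n : ℝ) ≠ 0 := by positivity
    field_simp
  have hstat : 1 / statLaw n (1 / (2 * n)) ⟨0, by omega⟩
      = ∑ j : Fin (n + 1), (2 * (n : ℝ) - 1) ^ j.val := by
    unfold statLaw
    rw [hr, pow_zero, one_div_one_div]
  rw [hstat, ← Real.log_pow]
  apply Real.log_le_log
  · apply pow_pos
    linarith
  · have := Finset.single_le_sum (f := fun j : Fin (n + 1) => (2 * (n : ℝ) - 1) ^ j.val)
      (fun j _ => pow_nonneg (by linarith) _) (Finset.mem_univ (Fin.last n))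
    simpa using this

end Pool.Agent.MP_e25d14_pr
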